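import Pool.Agent.R453.Sse.Core

set_option autoImplicit false

namespace Pool.R453.Sse

open Topology

/-- the number of levels -/
def Lv (K : ℕ) : ℕ := 2 * (K * K) + 2

instance (K : ℕ) : NeZero (Lv K) := ⟨by unfold Lv; omega⟩

variable {a : ℕ → ℕ → ℕ} {K : ℕ}

lemma level_step {u w : T3} (h : relT a K u w) : ((w.1 : ℕ) : ZMod (Lv K)) = (u.1 : ℕ) + 1 := by
  have hL : ((Lv K : ℕ) : ZMod (Lv K)) = 0 := ZMod.natCast_self _
  obtain ⟨_, _, h⟩ := h
  rcases h with h | h | h | h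
  · rw [h.2.1]; push_cast; ring
  · rw [h.2.1]; push_cast; ring
  · rw [h.2.2.1]; push_cast; ring
  · have h1 : u.1 + 1 = Lv K := by unfold Lv; omega
    rw [h.2.1, Nat.cast_zero, ← Nat.cast_one, ← Nat.cast_add, h1, hL]

lemma level_lt {u w : T3} (h : relT a K u w) : u.1 < Lv K := by
  obtain ⟨_, _, h⟩ := h
  unfold Lv
  rcases h with h | h | h | h <;> omega

lemma level_all (x : SS T3 (relT a K)) (t s : ℤ) :
    (((x.1 (t + s)).1 : ℕ) : ZMod (Lv K)) = ((x.1 t).1 : ℕ) + (s : ZMod (Lv K)) := by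
  induction s using Int.induction_on with
  | zero => simp
  | succ i ih =>
    have h := level_step (x.2 (t + i))
    rw [show t + ((i : ℤ) + 1) = t + i + 1 by ring, h, ih]
    push_cast; ring
  | pred i ih =>
    have h := level_step (x.2 (t + (-(i : ℤ) - 1)))
    rw [show t + (-(i : ℤ) - 1) + 1 = t + -(i : ℤ) by ring, ih] at h
    push_cast at h ⊢
    linear_combination -h

/-- the grading of the sparse shift -/
def gradT (a : ℕ → ℕ → ℕ) (K : ℕ) : Grad (SS.flow T3 (relT a K)) (Lv K) where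
  g x := ((x.1 0).1 : ℕ)
  loc := by
    have h := (IsLocallyConstant.of_discrete (fun u : T3 => ((u.1 : ℕ) : ZMod (Lv K))))
    exact h.comp_continuous (SS.cont_coord 0)
  eq b x := by
    have := level_all x 0 b
    exact this

lemma base_level (x : SS T3 (relT a K)) (h0 : (((x.1 0).1 : ℕ) : ZMod (Lv K)) = 0) (k : ℤ)
    (q : ℕ) (hq : q < Lv K) : (x.1 ((Lv K : ℤ) * k + q)).1 = q := by
  have h1 := level_all x 0 ((Lv K : ℤ) * k + q)
  rw [zero_add, h0, zero_add, Int.cast_add, Int.cast_mul, Int.cast_natCast, Int.cast_natCast,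
    ZMod.natCast_self, zero_mul, zero_add] at h1
  have h2 := (ZMod.natCast_eq_natCast_iff' _ _ _).1 h1
  rw [Nat.mod_eq_of_lt hq, Nat.mod_eq_of_lt (level_lt (x.2 _))] at h2
  exact h2

lemma base_det (x : SS T3 (relT a K)) (h0 : (((x.1 0).1 : ℕ) : ZMod (Lv K)) = 0) (k : ℤ) :
    ((rd K (x.1 ((Lv K : ℤ) * k + (K * K : ℕ)))).2.2 <
      a (rd K (x.1 ((Lv K : ℤ) * k + (K * K : ℕ)))).1
        (rd K (x.1 ((Lv K : ℤ) * k + (K * K : ℕ)))).2.1) ∧
    ∀ q : ℕ, q < Lv K → x.1 ((Lv K : ℤ) * k + q) =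
      enc K (rd K (x.1 ((Lv K : ℤ) * k + (K * K : ℕ)))) q := by
  have h := det (a := a) (K := K) (fun q : ℕ => x.1 ((Lv K : ℤ) * k + q))
    (fun q _ => by
      have := x.2 ((Lv K : ℤ) * k + q)
      rw [add_assoc] at this
      exact_mod_cast this)
    (fun q hq => base_level x h0 k q (by unfold Lv; omega))
  refine ⟨h.1, fun q hq => h.2 q (by unfold Lv at hq; omega)⟩

lemma enc_last_inv {e f : T3} (h : relT a K (enc K e (2 * (K * K) + 1)) (enc K f 0)) :
    e.2.1 = f.1 := by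
  have e1 : enc K e (2 * (K * K) + 1) = (2 * (K * K) + 1, e.2.1, 0) := by
    simp only [enc]; rw [if_neg (by omega)]
    simp
  have e2 : enc K f 0 = (0, f.1, 0) := by
    simp only [enc]; rw [if_pos (by omega)]
    simp
  rw [e1, e2] at h
  obtain ⟨_, _, h⟩ := h
  rcases h with h | h | h | h
  · simp only at h; omega
  · simp only at h; omega
  · simp only at h; omega
  · exact h.2.2.1.symm

lemma div_lem (k : ℤ) (q : ℕ) (hq : q < Lv K) : ((Lv K : ℤ) * k + q) / (Lv K : ℤ) = k ∧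
    (((Lv K : ℤ) * k + q) % (Lv K : ℤ)).toNat = q := by
  have hL : (0 : ℤ) < Lv K := by
    have := NeZero.pos (Lv K)
    exact_mod_cast this
  have h := (Int.ediv_emod_unique (a := (Lv K : ℤ) * k + q) (q := k) (r := q) hL).2
    ⟨by rw [add_comm], by positivity, by exact_mod_cast hq⟩
  refine ⟨h.1, ?_⟩
  rw [h.2]; simp

lemma exists_div (t : ℤ) : ∃ (k : ℤ) (q : ℕ), q < Lv K ∧ t = (Lv K : ℤ) * k + q := by
  have hL : (0 : ℤ) < Lv K := by
    have := NeZero.pos (Lv K)
    exact_mod_cast this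
  have h1 := Int.emod_nonneg t hL.ne'
  have h2 := Int.emod_lt_of_pos t hL
  have h3 := Int.mul_ediv_add_emod t (Lv K)
  refine ⟨t / Lv K, (t % Lv K).toNat, ?_, ?_⟩
  · omega
  · rw [Int.toNat_of_nonneg h1]; exact h3.symm

/-- the coded path of a bi-infinite sequence of edges -/
def unroll (K : ℕ) (y : ℤ → T3) (t : ℤ) : T3 :=
  enc K (y (t / (Lv K : ℤ))) (t % (Lv K : ℤ)).toNat

lemma unroll_eq (y : ℤ → T3) (k : ℤ) (q : ℕ) (hq : q < Lv K) :
    unroll K y ((Lv K : ℤ) * k + q) = enc K (y k) q := by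
  obtain ⟨h1, h2⟩ := div_lem (K := K) k q hq
  unfold unroll
  rw [h1, h2]

lemma unroll_rel (ha : Good a K) (y : SS T3 (relE a)) (t : ℤ) :
    relT a K (unroll K y.1 t) (unroll K y.1 (t + 1)) := by
  obtain ⟨k, q, hq, rfl⟩ := exists_div (K := K) t
  obtain ⟨v1, v2, v3⟩ := y.2 k
  rw [unroll_eq _ _ _ hq]
  rcases Nat.lt_or_ge (q + 1) (Lv K) with h | h
  · rw [show (Lv K : ℤ) * k + q + 1 = (Lv K : ℤ) * k + ((q + 1 : ℕ) : ℤ) by push_cast; ring,
      unroll_eq _ _ _ h]
    exact enc_step ha v1 (by unfold Lv at h; omega)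
  · have hq' : q = 2 * (K * K) + 1 := by unfold Lv at hq h; omega
    rw [show (Lv K : ℤ) * k + q + 1 = (Lv K : ℤ) * (k + 1) + ((0 : ℕ) : ℤ) by
        rw [hq']; unfold Lv; push_cast; ring,
      unroll_eq _ _ _ (NeZero.pos _), hq']
    exact enc_last ha v1 v3

/-- the base of the sparse shift is the coded edge shift -/
theorem base_conj (ha : Good a K) : FConj (gradT a K).base (SS.flow T3 (relE a)) := by
  refine ⟨{ toFun := fun x => ⟨fun k => rd K (x.1.1 ((Lv K : ℤ) * k + (K * K : ℕ))), fun k => ?_⟩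
            invFun := fun y => ⟨⟨unroll K y.1, unroll_rel ha y⟩, ?_⟩
            left_inv := ?_
            right_inv := ?_
            continuous_toFun := ?_
            continuous_invFun := ?_ }, ?_⟩
  · have h1 := base_det x.1 x.2 k
    have h2 := base_det x.1 x.2 (k + 1)
    refine ⟨h1.1, h2.1, ?_⟩
    have h3 := x.1.2 ((Lv K : ℤ) * k + ((2 * (K * K) + 1 : ℕ) : ℤ))
    rw [h1.2 _ (by unfold Lv; omega),
      show (Lv K : ℤ) * k + ((2 * (K * K) + 1 : ℕ) : ℤ) + 1 =
        (Lv K : ℤ) * (k + 1) + ((0 : ℕ) : ℤ) by unfold Lv; push_cast; ring,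
      h2.2 _ (NeZero.pos _)] at h3
    exact enc_last_inv h3
  · show (((unroll K y.1 0).1 : ℕ) : ZMod (Lv K)) = 0
    have h := unroll_eq (K := K) y.1 0 0 (NeZero.pos _)
    simp only [mul_zero, Nat.cast_zero, add_zero] at h
    rw [h]
    simp [enc]
  · intro x
    refine Subtype.ext (Subtype.ext (funext fun t => ?_))
    obtain ⟨k, q, hq, rfl⟩ := exists_div (K := K) t
    show unroll K _ _ = x.1.1 _
    rw [unroll_eq _ _ _ hq]
    exact ((base_det x.1 x.2 k).2 q hq).symm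
  · intro y
    refine Subtype.ext (funext fun k => ?_)
    show rd K (unroll K y.1 ((Lv K : ℤ) * k + (K * K : ℕ))) = y.1 k
    rw [unroll_eq _ _ _ (by unfold Lv; omega)]
    exact rd_enc ha (y.2 k).1
  · refine Continuous.subtype_mk ?_ _
    refine continuous_pi (fun k => ?_)
    exact (continuous_of_discreteTopology (f := rd K)).comp
      ((SS.cont_coord _).comp continuous_subtype_val)
  · refine Continuous.subtype_mk (Continuous.subtype_mk ?_ _) _
    refine continuous_pi (fun t => ?_)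
    exact (continuous_of_discreteTopology (f := fun e => enc K e (t % (Lv K : ℤ)).toNat)).comp
      (SS.cont_coord (t / (Lv K : ℤ)))
  · intro b x
    refine Subtype.ext (funext fun k => ?_)
    show rd K (x.1.1 ((Lv K : ℤ) * k + (K * K : ℕ) + (Lv K : ℤ) * b)) =
      rd K (x.1.1 ((Lv K : ℤ) * (k + b) + (K * K : ℕ)))
    have e : (Lv K : ℤ) * k + (K * K : ℕ) + (Lv K : ℤ) * b =
      (Lv K : ℤ) * (k + b) + (K * K : ℕ) := by ring
    rw [e]

end Pool.R453.Sse
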