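import Pool.Agent.R453.Sse.Mat

set_option autoImplicit false

namespace Pool.R453.Sse

open Primrec

lemma relT_primrec {β : Type} [Primcodable β] {K : β → ℕ} {u w : β → T3}
    {A : β → ℕ → ℕ → ℕ} (hK : Primrec K) (hu : Primrec u) (hw : Primrec w)
    (hA : Primrec (fun x => A x (u x).2.1 (w x).2.1)) :
    PrimrecPred (fun x => relT (A x) (K x) (u x) (w x)) := by
  have u1 : Primrec (fun x => (u x).1) := fst.comp hu
  have u2 : Primrec (fun x => (u x).2.1) := fst.comp (snd.comp hu)
  have u3 : Primrec (fun x => (u x).2.2) := snd.comp (snd.comp hu)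
  have w1 : Primrec (fun x => (w x).1) := fst.comp hw
  have w2 : Primrec (fun x => (w x).2.1) := fst.comp (snd.comp hw)
  have w3 : Primrec (fun x => (w x).2.2) := snd.comp (snd.comp hw)
  have m : Primrec (fun x => K x * K x) := nat_mul.comp hK hK
  have m2 : Primrec (fun x => 2 * (K x * K x)) := nat_mul.comp (const 2) m
  have m21 : Primrec (fun x => 2 * (K x * K x) + 1) := nat_add.comp m2 (const 1)
  have u11 : Primrec (fun x => (u x).1 + 1) := nat_add.comp u1 (const 1)
  have w31 : Primrec (fun x => (w x).2.2 + 1) := nat_add.comp w3 (const 1)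
  have dm : Primrec (fun x => 2 * (K x * K x) - (u x).1) := nat_sub.comp m2 u1
  have ud : Primrec (fun x => (u x).2.2 / K x) := nat_div.comp u3 hK
  have wd : Primrec (fun x => (w x).2.2 / K x) := nat_div.comp w3 hK
  have um : Primrec (fun x => (u x).2.2 % K x) := nat_mod.comp u3 hK
  have wm : Primrec (fun x => (w x).2.2 % K x) := nat_mod.comp w3 hK
  unfold relT
  refine (nat_lt.comp u2 hK).and ((nat_lt.comp w2 hK).and ?_)
  refine PrimrecPred.or ?_ (PrimrecPred.or ?_ (PrimrecPred.or ?_ ?_))
  · exact (nat_lt.comp u1 m).and ((Primrec.eq.comp w1 u11).and ((Primrec.eq.comp w2 u2).and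
      ((nat_le.comp u3 u1).and ((Primrec.eq.comp w3 u3).or
        ((Primrec.eq.comp u3 u1).and (Primrec.eq.comp w3 u11))))))
  · exact (Primrec.eq.comp u1 m).and ((Primrec.eq.comp w1 u11).and ((Primrec.eq.comp w2 ud).and
      ((Primrec.eq.comp u2 wd).and ((Primrec.eq.comp um wm).and (nat_lt.comp um hA)))))
  · exact (nat_lt.comp m u1).and ((nat_lt.comp u1 m21).and ((Primrec.eq.comp w1 u11).and
      ((Primrec.eq.comp w2 u2).and ((nat_le.comp w3 dm).and ((Primrec.eq.comp u3 w3).or
        ((Primrec.eq.comp w3 dm).and (Primrec.eq.comp u3 w31)))))))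
  · exact (Primrec.eq.comp u1 m21).and ((Primrec.eq.comp w1 (const 0)).and
      ((Primrec.eq.comp w2 u2).and ((Primrec.eq.comp u3 (const 0)).and
        (Primrec.eq.comp w3 (const 0)))))

lemma dc_primrec {β : Type} [Primcodable β] {K v : β → ℕ} (hK : Primrec K) (hv : Primrec v) :
    Primrec (fun x => dc (K x) (v x)) := by
  have m : Primrec (fun x => K x * K x + 1) :=
    nat_add.comp (nat_mul.comp hK hK) (const 1)
  have d : Primrec (fun x => v x / (K x * K x + 1)) := nat_div.comp hv m
  exact Primrec.pair (nat_div.comp d hK) (Primrec.pair (nat_mod.comp d hK) (nat_mod.comp hv m))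

lemma ent_primrec {β : Type} [Primcodable β] {l : β → List (List ℕ)} {i j : β → ℕ}
    (hl : Primrec l) (hi : Primrec i) (hj : Primrec j) :
    Primrec (fun x => ent (l x) (i x) (j x)) := by
  have hlen : Primrec (fun x => (l x).length) := list_length.comp hl
  unfold ent
  refine Primrec.ite ((nat_lt.comp hi hlen).and (nat_lt.comp hj hlen)) ?_ (const 0)
  exact (list_getD 0).comp ((list_getD []).comp hl hi) hj

lemma tent_primrec {β : Type} [Primcodable β] {K v w : β → ℕ} {l : β → List (List ℕ)}
    (hK : Primrec K) (hl : Primrec l) (hv : Primrec v) (hw : Primrec w) :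
    Primrec (fun x => tent (ent (l x)) (K x) (v x) (w x)) := by
  have hu := dc_primrec hK hv
  have hw' := dc_primrec hK hw
  unfold tent
  refine Primrec.ite (relT_primrec hK hu hw' ?_) (const 1) (const 0)
  exact ent_primrec hl (fst.comp (snd.comp hu)) (fst.comp (snd.comp hw'))

theorem TT_primrec : Primrec₂ TT := by
  have hN : Primrec NN := by
    have m : Primrec (fun K : ℕ => K * K) := nat_mul.comp .id .id
    exact nat_mul.comp (nat_mul.comp (nat_add.comp (nat_mul.comp (const 2) m) (const 2)) .id)
      (nat_add.comp m (const 1))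
  refine Primrec.list_map (list_range.comp (hN.comp fst)) ?_
  refine Primrec.list_map (list_range.comp (hN.comp (fst.comp fst))) ?_
  exact tent_primrec (fst.comp (fst.comp fst)) (snd.comp (fst.comp fst)) (snd.comp fst) snd

/-- a computable bound for sizes and entries -/
def bound (p : List (List ℕ) × List (List ℕ)) : ℕ := Encodable.encode p

lemma encode_length_le {α : Type} [Encodable α] (l : List α) :
    l.length ≤ Encodable.encode l := by
  induction l with
  | nil => simp
  | cons x l ih =>
    rw [Encodable.encode_list_cons, List.length_cons]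
    have := Nat.right_le_pair (Encodable.encode x) (Encodable.encode l)
    omega

lemma encode_mem_le {α : Type} [Encodable α] (l : List α) (x : α) (hx : x ∈ l) :
    Encodable.encode x ≤ Encodable.encode l := by
  induction l with
  | nil => simp at hx
  | cons y l ih =>
    rw [Encodable.encode_list_cons]
    rcases List.mem_cons.1 hx with rfl | h
    · have := Nat.left_le_pair (Encodable.encode x) (Encodable.encode l)
      omega
    · have := Nat.right_le_pair (Encodable.encode y) (Encodable.encode l)
      have := ih h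
      omega

lemma bd_encode (l : List (List ℕ)) {K : ℕ} (hK : Encodable.encode l ≤ K) : Bd K l := by
  refine ⟨(encode_length_le l).trans hK, fun i j => ?_⟩
  show (l.getD i []).getD j 0 ≤ K
  rw [List.getD_eq_getElem _ _ i.2]
  have h1 := encode_mem_le l (l[(i : ℕ)]) (List.getElem_mem _)
  rcases Nat.lt_or_ge (j : ℕ) (l[(i : ℕ)]).length with h | h
  · rw [List.getD_eq_getElem _ _ h]
    have h2 := encode_mem_le (l[(i : ℕ)]) _ (List.getElem_mem h)
    have h3 : Encodable.encode (l[(i : ℕ)])[(j : ℕ)] = (l[(i : ℕ)])[(j : ℕ)] := rfl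
    omega
  · rw [List.getD_eq_default _ _ h]
    omega

lemma bd_bound (p : List (List ℕ) × List (List ℕ)) : Bd (bound p) p.1 ∧ Bd (bound p) p.2 := by
  have h : Encodable.encode p = Nat.pair (Encodable.encode p.1) (Encodable.encode p.2) := rfl
  refine ⟨bd_encode _ ?_, bd_encode _ ?_⟩
  · unfold bound; rw [h]; exact Nat.left_le_pair _ _
  · unfold bound; rw [h]; exact Nat.right_le_pair _ _

/-- the reduction as a map on pairs -/
def red (p : List (List ℕ) × List (List ℕ)) : List (List ℕ) × List (List ℕ) :=
  (TT (bound p) p.1, TT (bound p) p.2)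

theorem red_primrec : Primrec red := by
  have hb : Primrec bound := Primrec.encode
  exact Primrec.pair (TT_primrec.comp hb fst) (TT_primrec.comp hb snd)

/-- conjugacy of edge shifts is decidable iff it is decidable on sparse matrices -/
theorem decidable_iff :
    ComputablePred (fun p : List (List ℕ) × List (List ℕ) => Conj (mat p.1) (mat p.2)) ↔
      ∃ f : List (List ℕ) × List (List ℕ) → Bool, Computable f ∧
        ∀ p, Sparse p.1 → Sparse p.2 → (f p = true ↔ Conj (mat p.1) (mat p.2)) := by
  classical
  constructor
  · rintro ⟨hd, hc⟩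
    refine ⟨fun p => decide (Conj (mat p.1) (mat p.2)), ?_, fun p _ _ => by simp⟩
    exact hc
  · rintro ⟨f, hf, hfp⟩
    have h : ∀ p : List (List ℕ) × List (List ℕ),
        (f (red p) = true ↔ Conj (mat p.1) (mat p.2)) := by
      intro p
      rw [hfp (red p) (TT_sparse _ _) (TT_sparse _ _)]
      exact (main_conj (bd_bound p).1 (bd_bound p).2).symm
    have hc : Computable (fun p => f (red p)) := hf.comp red_primrec.to_comp
    refine ⟨fun p => decidable_of_iff _ (h p), ?_⟩
    refine hc.of_eq fun p => ?_
    by_cases hp : f (red p) = true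
    · rw [hp]; symm; simpa using (h p).1 hp
    · rw [Bool.not_eq_true] at hp
      rw [hp]; symm
      have : ¬ Conj (mat p.1) (mat p.2) := fun hcj => by
        have := (h p).2 hcj
        rw [hp] at this
        exact absurd this (by simp)
      simpa using this

end Pool.R453.Sse
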