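import Pool.Agent.R453.Sse.Mat2

set_option autoImplicit false

namespace Pool.R453.Sse

/-- on a path of fewer than `D` edges, the first or the last vertex has total degree at most 2 -/
def Spaced (D : ℕ) (l : List (List ℕ)) : Prop :=
  ∀ (k : ℕ) (x : ℕ → Fin l.length), 1 ≤ k → k < D →
    (∀ i < k, mat l (x i) (x (i + 1)) ≠ 0) → deg l (x 0) ≤ 2 ∨ deg l (x k) ≤ 2

/-- 0-1 matrix of total degrees at most 3, the vertices of degree 3 at distances at least `D` -/
def Sparse3 (D : ℕ) (l : List (List ℕ)) : Prop :=
  (∀ i j, mat l i j ≤ 1) ∧ (∀ i, deg l i ≤ 3) ∧ Spaced D l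

theorem TI_sparse (D K : ℕ) (l : List (List ℕ)) : Sparse3 D (TI D K l) := by
  refine ⟨?_, deg_le_three D K l, ?_⟩
  · intro v w
    rw [mat_TI]; unfold tentI; split_ifs <;> omega
  · intro k x hk hkD hx
    by_contra hcon
    rw [not_or] at hcon
    obtain ⟨d0, dk⟩ := hcon
    have h0 := deg_three D K l (x 0) (by omega)
    have hk3 := deg_three D K l (x k) (by omega)
    obtain ⟨y, hy⟩ : ∃ y : ℕ → ℕ × T3, ∀ i, dcI D K (x i) = y i := ⟨_, fun _ => rfl⟩
    have hr : ∀ i < k, relI K D (relT (ent l) K) (y i) (y (i + 1)) := by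
      intro i hi
      have h := hx i hi
      rw [mat_TI] at h
      unfold tentI at h
      rw [← hy, ← hy]
      by_contra hn
      rw [if_neg hn] at h
      exact h rfl
    rw [hy] at h0 hk3
    rcases h0 with ⟨a1, a2⟩ | ⟨a1, a2⟩
    · -- branching vertex at the start
      have h1 := hr 0 (by omega)
      obtain ⟨_, _, h1⟩ := h1
      have h1' : (y 1).1 = 1 ∧ relT (ent l) K (y 0).2 (y 1).2 := by
        rcases h1 with h | h | h
        · exact h.2
        · exact absurd a1 h.1
        · exact absurd a1 h.1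
      obtain ⟨b1, b2⟩ := h1'
      have b3 : (y 1).2.1 ≤ K * K := by
        obtain ⟨_, _, b2⟩ := b2
        rcases b2 with h | h | h | h <;> omega
      have hp : ∀ i, 1 ≤ i → i ≤ k → (y i).1 = i ∧ (y i).2 = (y 1).2 := by
        intro i hi
        induction i, hi using Nat.le_induction with
        | base => intro _; exact ⟨b1, rfl⟩
        | succ i hi ih =>
          intro hik
          obtain ⟨c1, c2⟩ := ih (by omega)
          obtain ⟨_, _, hs⟩ := hr i (by omega)
          rcases hs with h | h | h
          · omega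
          · exact ⟨by omega, by rw [h.2.2.2, c2]⟩
          · omega
      obtain ⟨c1, c2⟩ := hp k hk le_rfl
      rw [c2] at hk3
      omega
    · have hp : ∀ i, i ≤ k → (i + 1 < D → (y i).1 = i + 1) ∧ (i + 1 = D → (y i).1 = 0) ∧
          (y i).2 = (y 0).2 := by
        intro i
        induction i with
        | zero => intro _; exact ⟨fun _ => a1, fun _ => by omega, rfl⟩
        | succ i ih =>
          intro hik
          obtain ⟨c1, c2, c3⟩ := ih (by omega)
          have c1' := c1 (by omega)
          obtain ⟨_, _, hs⟩ := hr i (by omega)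
          rcases hs with h | h | h
          · omega
          · exact ⟨fun _ => by omega, fun _ => by omega, by rw [h.2.2.2, c3]⟩
          · exact ⟨fun _ => by omega, fun _ => by omega, by rw [h.2.2.2, c3]⟩
      obtain ⟨c1, c2, c3⟩ := hp k le_rfl
      rw [c3] at hk3
      rcases Nat.lt_or_ge (k + 1) D with h | h
      · have := c1 h
        omega
      · have := c2 (by omega)
        omega

open Primrec

lemma box_primrec {β : Type} [Primcodable β] {K : β → ℕ} {u : β → T3} (hK : Primrec K)
    (hu : Primrec u) : PrimrecPred (fun x => Box (K x) (u x)) := by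
  have u1 : Primrec (fun x => (u x).1) := fst.comp hu
  have u2 : Primrec (fun x => (u x).2.1) := fst.comp (snd.comp hu)
  have u3 : Primrec (fun x => (u x).2.2) := snd.comp (snd.comp hu)
  have m : Primrec (fun x => K x * K x) := nat_mul.comp hK hK
  have m2 : Primrec (fun x => 2 * (K x * K x) + 2) :=
    nat_add.comp (nat_mul.comp (const 2) m) (const 2)
  have m1 : Primrec (fun x => K x * K x + 1) := nat_add.comp m (const 1)
  exact (nat_lt.comp u1 m2).and ((nat_lt.comp u2 hK).and (nat_lt.comp u3 m1))

lemma relI_primrec {β : Type} [Primcodable β] (D : ℕ) {K : β → ℕ} {x y : β → ℕ × T3}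
    {A : β → ℕ → ℕ → ℕ} (hK : Primrec K) (hx : Primrec x) (hy : Primrec y)
    (hA : Primrec (fun b => A b (x b).2.2.1 (y b).2.2.1)) :
    PrimrecPred (fun b => relI (K b) D (relT (A b) (K b)) (x b) (y b)) := by
  have x1 : Primrec (fun b => (x b).1) := fst.comp hx
  have x2 : Primrec (fun b => (x b).2) := snd.comp hx
  have y1 : Primrec (fun b => (y b).1) := fst.comp hy
  have y2 : Primrec (fun b => (y b).2) := snd.comp hy
  have x11 : Primrec (fun b => (x b).1 + 1) := nat_add.comp x1 (const 1)
  have hR : PrimrecPred (fun b => relT (A b) (K b) (x b).2 (y b).2) :=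
    relT_primrec hK x2 y2 hA
  have hx0 : PrimrecPred (fun b => (x b).1 ≠ 0) := (Primrec.eq.comp x1 (const 0)).not
  have hyx : PrimrecPred (fun b => (y b).2 = (x b).2) := Primrec.eq.comp y2 x2
  unfold relI
  refine (box_primrec hK x2).and ((box_primrec hK y2).and ?_)
  refine PrimrecPred.or ?_ (PrimrecPred.or ?_ ?_)
  · exact (Primrec.eq.comp x1 (const 0)).and ((Primrec.eq.comp y1 (const 1)).and hR)
  · exact hx0.and ((nat_lt.comp x11 (const D)).and ((Primrec.eq.comp y1 x11).and hyx))
  · exact hx0.and ((Primrec.eq.comp x11 (const D)).and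
      ((Primrec.eq.comp y1 (const 0)).and hyx))

lemma dcI_primrec {β : Type} [Primcodable β] (D : ℕ) {K v : β → ℕ} (hK : Primrec K)
    (hv : Primrec v) : Primrec (fun x => dcI D (K x) (v x)) :=
  Primrec.pair (nat_mod.comp hv (const D)) (dc_primrec hK (nat_div.comp hv (const D)))

lemma tentI_primrec {β : Type} [Primcodable β] (D : ℕ) {K v w : β → ℕ}
    {l : β → List (List ℕ)} (hK : Primrec K) (hl : Primrec l) (hv : Primrec v)
    (hw : Primrec w) : Primrec (fun x => tentI (ent (l x)) D (K x) (v x) (w x)) := by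
  have hu := dcI_primrec D hK hv
  have hw' := dcI_primrec D hK hw
  unfold tentI
  refine Primrec.ite (relI_primrec D hK hu hw' ?_) (const 1) (const 0)
  exact ent_primrec hl (fst.comp (snd.comp (snd.comp hu))) (fst.comp (snd.comp (snd.comp hw')))

theorem TI_primrec (D : ℕ) : Primrec₂ (TI D) := by
  have hN : Primrec (fun K => NN K * D) := by
    have m : Primrec (fun K : ℕ => K * K) := nat_mul.comp .id .id
    have hNN : Primrec NN :=
      nat_mul.comp (nat_mul.comp (nat_add.comp (nat_mul.comp (const 2) m) (const 2)) .id)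
        (nat_add.comp m (const 1))
    exact nat_mul.comp hNN (const D)
  refine Primrec.list_map (list_range.comp (hN.comp fst)) ?_
  refine Primrec.list_map (list_range.comp (hN.comp (fst.comp fst))) ?_
  exact tentI_primrec D (fst.comp (fst.comp fst)) (snd.comp (fst.comp fst)) (snd.comp fst) snd

/-- the reduction as a map on pairs -/
def redI (D : ℕ) (p : List (List ℕ) × List (List ℕ)) : List (List ℕ) × List (List ℕ) :=
  (TI D (bound p) p.1, TI D (bound p) p.2)

theorem redI_primrec (D : ℕ) : Primrec (redI D) := by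
  have hb : Primrec bound := Primrec.encode
  exact Primrec.pair ((TI_primrec D).comp hb fst) ((TI_primrec D).comp hb snd)

/-- conjugacy of edge shifts in a class is decidable iff it is decidable on its sparse members -/
theorem decidable_iff_I {D : ℕ} (hD : 2 ≤ D) (C : List (List ℕ) → Prop)
    (hC : ∀ K l, Bd K l → (C l ↔ C (TI D K l))) :
    (∃ f : List (List ℕ) × List (List ℕ) → Bool, Computable f ∧
        ∀ p, C p.1 → C p.2 → (f p = true ↔ Conj (mat p.1) (mat p.2))) ↔
      ∃ f : List (List ℕ) × List (List ℕ) → Bool, Computable f ∧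
        ∀ p, C p.1 → C p.2 → Sparse3 D p.1 → Sparse3 D p.2 →
          (f p = true ↔ Conj (mat p.1) (mat p.2)) := by
  constructor
  · rintro ⟨f, hf, h⟩
    exact ⟨f, hf, fun p h1 h2 _ _ => h p h1 h2⟩
  · rintro ⟨f, hf, hfp⟩
    refine ⟨fun p => f (redI D p), hf.comp (redI_primrec D).to_comp, fun p h1 h2 => ?_⟩
    rw [hfp (redI D p) ((hC _ _ (bd_bound p).1).1 h1) ((hC _ _ (bd_bound p).2).1 h2)
      (TI_sparse _ _ _) (TI_sparse _ _ _)]
    exact (mainI_conj hD (bd_bound p).1 (bd_bound p).2).symm

end Pool.R453.Sse
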