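import Pool.Agent.R453.Sse.Seq

set_option autoImplicit false

namespace Pool.R453.Sse

open Topology

/-- the relation of the sparse graph: vertices `(level, i, p)` -/
def relT (a : ℕ → ℕ → ℕ) (K : ℕ) (u w : T3) : Prop :=
  u.2.1 < K ∧ w.2.1 < K ∧
  ((u.1 < K * K ∧ w.1 = u.1 + 1 ∧ w.2.1 = u.2.1 ∧ u.2.2 ≤ u.1 ∧
      (w.2.2 = u.2.2 ∨ (u.2.2 = u.1 ∧ w.2.2 = u.1 + 1)))
    ∨ (u.1 = K * K ∧ w.1 = u.1 + 1 ∧ w.2.1 = u.2.2 / K ∧ u.2.1 = w.2.2 / K ∧
      u.2.2 % K = w.2.2 % K ∧ u.2.2 % K < a u.2.1 w.2.1)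
    ∨ (K * K < u.1 ∧ u.1 < 2 * (K * K) + 1 ∧ w.1 = u.1 + 1 ∧ w.2.1 = u.2.1 ∧
      w.2.2 ≤ 2 * (K * K) - u.1 ∧
      (u.2.2 = w.2.2 ∨ (w.2.2 = 2 * (K * K) - u.1 ∧ u.2.2 = w.2.2 + 1)))
    ∨ (u.1 = 2 * (K * K) + 1 ∧ w.1 = 0 ∧ w.2.1 = u.2.1 ∧ u.2.2 = 0 ∧ w.2.2 = 0))

/-- the vertex at level `q` of the path coding the edge `e = (i, j, c)` -/
def enc (K : ℕ) (e : T3) (q : ℕ) : T3 :=
  if q ≤ K * K then (q, e.1, min (e.2.1 * K + e.2.2) q)
  else (q, e.2.1, min (e.1 * K + e.2.2) (2 * (K * K) + 1 - q))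

/-- reading the edge off the middle vertex -/
def rd (K : ℕ) (u : T3) : T3 := (u.2.1, u.2.2 / K, u.2.2 % K)

lemma code_div {K j c : ℕ} (hc : c < K) : (j * K + c) / K = j := by
  rw [add_comm, Nat.add_mul_div_right _ _ (by omega), Nat.div_eq_of_lt hc, zero_add]

lemma code_mod {K j c : ℕ} (hc : c < K) : (j * K + c) % K = c := by
  rw [add_comm, Nat.add_mul_mod_self_right, Nat.mod_eq_of_lt hc]

lemma code_lt {K j c : ℕ} (hj : j < K) (hc : c < K) : j * K + c < K * K := by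
  have : (j + 1) * K ≤ K * K := Nat.mul_le_mul_right K hj
  have h2 : (j + 1) * K = j * K + K := by ring
  omega

lemma lt_of_div {K p i : ℕ} (hi : i < K) (h : i = p / K) : p < K * K := by
  subst h
  have hK : 0 < K := lt_of_le_of_lt (Nat.zero_le _) hi
  exact (Nat.div_lt_iff_lt_mul hK).1 hi

variable {a : ℕ → ℕ → ℕ} {K : ℕ}

/-- hypotheses on the coded matrix -/
def Good (a : ℕ → ℕ → ℕ) (K : ℕ) : Prop :=
  (∀ i j, a i j ≤ K) ∧ ∀ i j, a i j ≠ 0 → i < K ∧ j < K

lemma good_bd (ha : Good a K) {e : T3} (he : e.2.2 < a e.1 e.2.1) :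
    e.1 < K ∧ e.2.1 < K ∧ e.2.2 < K := by
  have h1 := ha.1 e.1 e.2.1
  have h2 := ha.2 e.1 e.2.1 (by omega)
  exact ⟨h2.1, h2.2, by omega⟩

lemma rd_enc (ha : Good a K) {e : T3} (he : e.2.2 < a e.1 e.2.1) :
    rd K (enc K e (K * K)) = e := by
  obtain ⟨h1, h2, h3⟩ := good_bd ha he
  have h4 := code_lt h2 h3
  simp only [rd, enc, le_refl, if_true]
  rw [min_eq_left h4.le, code_div h3, code_mod h3]

lemma enc_step (ha : Good a K) {e : T3} (he : e.2.2 < a e.1 e.2.1) {q : ℕ}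
    (hq : q < 2 * (K * K) + 1) : relT a K (enc K e q) (enc K e (q + 1)) := by
  obtain ⟨h1, h2, h3⟩ := good_bd ha he
  have h4 := code_lt h2 h3
  have h5 := code_lt h1 h3
  rcases lt_trichotomy q (K * K) with h | h | h
  · have e1 : enc K e q = (q, e.1, min (e.2.1 * K + e.2.2) q) := by
      simp only [enc]; rw [if_pos (by omega)]
    have e2 : enc K e (q + 1) = (q + 1, e.1, min (e.2.1 * K + e.2.2) (q + 1)) := by
      simp only [enc]; rw [if_pos (by omega)]
    rw [e1, e2]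
    refine ⟨h1, h1, Or.inl ⟨h, rfl, rfl, min_le_right _ _, ?_⟩⟩
    show min (e.2.1 * K + e.2.2) (q + 1) = min (e.2.1 * K + e.2.2) q ∨
      (min (e.2.1 * K + e.2.2) q = q ∧ min (e.2.1 * K + e.2.2) (q + 1) = q + 1)
    generalize e.2.1 * K + e.2.2 = p
    omega
  · subst h
    have e1 : enc K e (K * K) = (K * K, e.1, e.2.1 * K + e.2.2) := by
      simp only [enc]; rw [if_pos (le_refl _), min_eq_left h4.le]
    have e2 : enc K e (K * K + 1) = (K * K + 1, e.2.1, e.1 * K + e.2.2) := by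
      simp only [enc]; rw [if_neg (by omega)]
      rw [min_eq_left (by omega)]
    rw [e1, e2]
    refine ⟨h1, h2, Or.inr (Or.inl ⟨rfl, rfl, ?_, ?_, ?_, ?_⟩)⟩
    · show e.2.1 = (e.2.1 * K + e.2.2) / K
      rw [code_div h3]
    · show e.1 = (e.1 * K + e.2.2) / K
      rw [code_div h3]
    · show (e.2.1 * K + e.2.2) % K = (e.1 * K + e.2.2) % K
      rw [code_mod h3, code_mod h3]
    · show (e.2.1 * K + e.2.2) % K < a e.1 e.2.1
      rw [code_mod h3]; exact he
  · have e1 : enc K e q = (q, e.2.1, min (e.1 * K + e.2.2) (2 * (K * K) + 1 - q)) := by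
      simp only [enc]; rw [if_neg (by omega)]
    have e2 : enc K e (q + 1) =
        (q + 1, e.2.1, min (e.1 * K + e.2.2) (2 * (K * K) + 1 - (q + 1))) := by
      simp only [enc]; rw [if_neg (by omega)]
    rw [e1, e2]
    refine ⟨h2, h2, Or.inr (Or.inr (Or.inl ⟨h, hq, rfl, rfl, ?_, ?_⟩))⟩
    · show min (e.1 * K + e.2.2) (2 * (K * K) + 1 - (q + 1)) ≤ 2 * (K * K) - q
      omega
    · show min (e.1 * K + e.2.2) (2 * (K * K) + 1 - q) =
          min (e.1 * K + e.2.2) (2 * (K * K) + 1 - (q + 1)) ∨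
        (min (e.1 * K + e.2.2) (2 * (K * K) + 1 - (q + 1)) = 2 * (K * K) - q ∧
          min (e.1 * K + e.2.2) (2 * (K * K) + 1 - q) =
          min (e.1 * K + e.2.2) (2 * (K * K) + 1 - (q + 1)) + 1)
      generalize e.1 * K + e.2.2 = p
      omega

lemma enc_last (ha : Good a K) {e f : T3} (he : e.2.2 < a e.1 e.2.1)
    (hef : e.2.1 = f.1) : relT a K (enc K e (2 * (K * K) + 1)) (enc K f 0) := by
  obtain ⟨h1, h2, h3⟩ := good_bd ha he
  have e1 : enc K e (2 * (K * K) + 1) = (2 * (K * K) + 1, e.2.1, 0) := by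
    simp only [enc]; rw [if_neg (by omega)]
    simp
  have e2 : enc K f 0 = (0, f.1, 0) := by
    simp only [enc]; rw [if_pos (by omega)]
    simp
  rw [e1, e2]
  exact ⟨h2, by rw [← hef]; exact h2, Or.inr (Or.inr (Or.inr ⟨rfl, rfl, hef.symm, rfl, rfl⟩))⟩

/-- a path from level 0 to level `2 K^2 + 1` is coded by its middle vertex -/
lemma det (y : ℕ → T3)
    (hy : ∀ q, q < 2 * (K * K) + 1 → relT a K (y q) (y (q + 1)))
    (hl : ∀ q, q ≤ 2 * (K * K) + 1 → (y q).1 = q) :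
    ((rd K (y (K * K))).2.2 < a (rd K (y (K * K))).1 (rd K (y (K * K))).2.1) ∧
    ∀ q, q ≤ 2 * (K * K) + 1 → y q = enc K (rd K (y (K * K))) q := by
  have hmid := hy (K * K) (by omega)
  have hlm := hl (K * K) (by omega)
  have hlm1 := hl (K * K + 1) (by omega)
  obtain ⟨b1, b2, hm⟩ := hmid
  rw [hlm] at hm
  have hm' : (y (K * K + 1)).2.1 = (y (K * K)).2.2 / K ∧
      (y (K * K)).2.1 = (y (K * K + 1)).2.2 / K ∧
      (y (K * K)).2.2 % K = (y (K * K + 1)).2.2 % K ∧
      (y (K * K)).2.2 % K < a (y (K * K)).2.1 (y (K * K + 1)).2.1 := by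
    rcases hm with h | h | h | h
    · omega
    · exact h.2.2
    · omega
    · omega
  obtain ⟨m1, m2, m3, m4⟩ := hm'
  have p1 : (y (K * K)).2.2 < K * K := lt_of_div b2 m1
  have p2 : (y (K * K + 1)).2.2 < K * K := lt_of_div b1 m2
  have back : ∀ d, d ≤ K * K → y (K * K - d) = enc K (rd K (y (K * K))) (K * K - d) := by
    intro d
    induction d with
    | zero =>
      intro _
      simp only [Nat.sub_zero, enc, le_refl, if_true, rd]
      rw [Nat.div_add_mod', min_eq_left p1.le]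
      exact Prod.ext hlm rfl
    | succ d ih =>
      intro hd
      have ih' := ih (by omega)
      obtain ⟨q, hq⟩ : ∃ q, K * K - (d + 1) = q := ⟨_, rfl⟩
      have hq1 : K * K - d = q + 1 := by omega
      rw [hq1] at ih'
      rw [hq]
      have hR := hy q (by omega)
      have hlq := hl q (by omega)
      have e1 : enc K (rd K (y (K * K))) q =
          (q, (rd K (y (K * K))).1, min (y (K * K)).2.2 q) := by
        simp only [enc, rd]; rw [if_pos (by omega), Nat.div_add_mod']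
      have e2 : enc K (rd K (y (K * K))) (q + 1) =
          (q + 1, (rd K (y (K * K))).1, min (y (K * K)).2.2 (q + 1)) := by
        simp only [enc, rd]; rw [if_pos (by omega), Nat.div_add_mod']
      rw [e2] at ih'
      rw [e1]
      rw [ih'] at hR
      obtain ⟨_, _, hR⟩ := hR
      rw [hlq] at hR
      have hR' : (rd K (y (K * K))).1 = (y q).2.1 ∧ (y q).2.2 ≤ q ∧
          (min (y (K * K)).2.2 (q + 1) = (y q).2.2 ∨
            ((y q).2.2 = q ∧ min (y (K * K)).2.2 (q + 1) = q + 1)) := by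
        rcases hR with h | h | h | h
        · exact h.2.2
        · omega
        · omega
        · omega
      obtain ⟨r1, r2, r3⟩ := hR'
      refine Prod.ext hlq (Prod.ext r1.symm ?_)
      show (y q).2.2 = min (y (K * K)).2.2 q
      omega
  have forw : ∀ d, d ≤ K * K → y (K * K + 1 + d) = enc K (rd K (y (K * K))) (K * K + 1 + d) := by
    intro d
    have hcode : (rd K (y (K * K))).1 * K + (rd K (y (K * K))).2.2 = (y (K * K + 1)).2.2 := by
      show (y (K * K)).2.1 * K + (y (K * K)).2.2 % K = _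
      rw [m2, m3, Nat.div_add_mod']
    have e1 : ∀ q, K * K < q → enc K (rd K (y (K * K))) q =
        (q, (y (K * K + 1)).2.1, min (y (K * K + 1)).2.2 (2 * (K * K) + 1 - q)) := by
      intro q hq
      simp only [enc]
      rw [if_neg (by omega), hcode]
      show (q, (y (K * K)).2.2 / K, _) = _
      rw [← m1]
    induction d with
    | zero =>
      intro _
      rw [e1 (K * K + 1 + 0) (by omega)]
      refine Prod.ext hlm1 (Prod.ext rfl ?_)
      show (y (K * K + 1)).2.2 = min (y (K * K + 1)).2.2 (2 * (K * K) + 1 - (K * K + 1 + 0))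
      exact (min_eq_left (by omega)).symm
    | succ d ih =>
      intro hd
      have ih' := ih (by omega)
      obtain ⟨q, hq⟩ : ∃ q, K * K + 1 + d = q := ⟨_, rfl⟩
      have hq1 : K * K + 1 + (d + 1) = q + 1 := by omega
      rw [hq] at ih'
      rw [hq1]
      have hR := hy q (by omega)
      have hlq := hl (q + 1) (by omega)
      rw [e1 q (by omega)] at ih'
      rw [e1 (q + 1) (by omega)]
      rw [ih'] at hR
      obtain ⟨_, _, hR⟩ := hR
      rw [hlq] at hR
      have hR' : (y (q + 1)).2.1 = (y (K * K + 1)).2.1 ∧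
          (y (q + 1)).2.2 ≤ 2 * (K * K) - q ∧
          (min (y (K * K + 1)).2.2 (2 * (K * K) + 1 - q) = (y (q + 1)).2.2 ∨
            ((y (q + 1)).2.2 = 2 * (K * K) - q ∧
              min (y (K * K + 1)).2.2 (2 * (K * K) + 1 - q) = (y (q + 1)).2.2 + 1)) := by
        rcases hR with h | h | h | h
        · simp only at h; omega
        · simp only at h; omega
        · exact h.2.2.2
        · simp only at h; omega
      obtain ⟨r1, r2, r3⟩ := hR'
      refine Prod.ext hlq (Prod.ext r1 ?_)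
      show (y (q + 1)).2.2 = min (y (K * K + 1)).2.2 (2 * (K * K) + 1 - (q + 1))
      omega
  refine ⟨?_, ?_⟩
  · show (y (K * K)).2.2 % K < a (y (K * K)).2.1 ((y (K * K)).2.2 / K)
    rw [← m1]; exact m4
  · intro q hq
    rcases Nat.lt_or_ge (K * K) q with h | h
    · obtain ⟨d, rfl⟩ : ∃ d, q = K * K + 1 + d := ⟨q - (K * K + 1), by omega⟩
      exact forw d (by omega)
    · obtain ⟨d, hdm, hd⟩ : ∃ d, d ≤ K * K ∧ q = K * K - d := ⟨K * K - q, by omega, by omega⟩
      rw [hd]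
      exact back d hdm

end Pool.R453.Sse
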