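import Pool.Agent.R453.Sse.Comp

set_option autoImplicit false

namespace Pool.R453.Sse

open Topology

/-- the coded range of the vertices of the sparse graph -/
def Box (K : ℕ) (u : T3) : Prop := u.1 < Lv K ∧ u.2.1 < K ∧ u.2.2 < K * K + 1

/-- a step of the graph with relation `R`, followed by `D - 1` idle steps -/
def relI (K D : ℕ) (R : T3 → T3 → Prop) (x y : ℕ × T3) : Prop :=
  Box K x.2 ∧ Box K y.2 ∧
  ((x.1 = 0 ∧ y.1 = 1 ∧ R x.2 y.2) ∨
    (x.1 ≠ 0 ∧ x.1 + 1 < D ∧ y.1 = x.1 + 1 ∧ y.2 = x.2) ∨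
    (x.1 ≠ 0 ∧ x.1 + 1 = D ∧ y.1 = 0 ∧ y.2 = x.2))

variable {K D : ℕ} {R : T3 → T3 → Prop}

lemma levelI_step (hD : 2 ≤ D) {x y : ℕ × T3} (h : relI K D R x y) :
    ((y.1 : ℕ) : ZMod D) = (x.1 : ℕ) + 1 := by
  obtain ⟨_, _, h⟩ := h
  rcases h with h | h | h
  · rw [h.1, h.2.1]; simp
  · rw [h.2.2.1]; push_cast; ring
  · rw [h.2.2.1, Nat.cast_zero, ← Nat.cast_one, ← Nat.cast_add, h.2.1, ZMod.natCast_self]

lemma levelI_lt (hD : 2 ≤ D) {x y : ℕ × T3} (h : relI K D R x y) : x.1 < D := by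
  obtain ⟨_, _, h⟩ := h
  rcases h with h | h | h <;> omega

lemma levelI_all (hD : 2 ≤ D) (x : SS (ℕ × T3) (relI K D R)) (t s : ℤ) :
    (((x.1 (t + s)).1 : ℕ) : ZMod D) = ((x.1 t).1 : ℕ) + (s : ZMod D) := by
  induction s using Int.induction_on with
  | zero => simp
  | succ i ih =>
    have h := levelI_step hD (x.2 (t + i))
    rw [show t + ((i : ℤ) + 1) = t + i + 1 by ring, h, ih]
    push_cast; ring
  | pred i ih =>
    have h := levelI_step hD (x.2 (t + (-(i : ℤ) - 1)))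
    rw [show t + (-(i : ℤ) - 1) + 1 = t + -(i : ℤ) by ring, ih] at h
    push_cast at h ⊢
    linear_combination -h

/-- the grading -/
def gradI (K : ℕ) {D : ℕ} (hD : 2 ≤ D) (R : T3 → T3 → Prop) :
    Grad (SS.flow (ℕ × T3) (relI K D R)) D where
  g x := ((x.1 0).1 : ℕ)
  loc := by
    have h := (IsLocallyConstant.of_discrete (fun u : ℕ × T3 => ((u.1 : ℕ) : ZMod D)))
    exact h.comp_continuous (SS.cont_coord 0)
  eq b x := by
    have := levelI_all hD x 0 b
    exact this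

lemma baseI_level (hD : 2 ≤ D) (x : SS (ℕ × T3) (relI K D R))
    (h0 : (((x.1 0).1 : ℕ) : ZMod D) = 0) (k : ℤ)
    (q : ℕ) (hq : q < D) : (x.1 ((D : ℤ) * k + q)).1 = q := by
  have h1 := levelI_all hD x 0 ((D : ℤ) * k + q)
  rw [zero_add, h0, zero_add, Int.cast_add, Int.cast_mul, Int.cast_natCast, Int.cast_natCast,
    ZMod.natCast_self, zero_mul, zero_add] at h1
  have h2 := (ZMod.natCast_eq_natCast_iff' _ _ _).1 h1
  rw [Nat.mod_eq_of_lt hq, Nat.mod_eq_of_lt (levelI_lt hD (x.2 _))] at h2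
  exact h2

lemma baseI_det (hD : 2 ≤ D) (x : SS (ℕ × T3) (relI K D R))
    (h0 : (((x.1 0).1 : ℕ) : ZMod D) = 0) (k : ℤ) :
    R (x.1 ((D : ℤ) * k)).2 (x.1 ((D : ℤ) * (k + 1))).2 ∧
    ∀ q : ℕ, 1 ≤ q → q < D → x.1 ((D : ℤ) * k + q) = (q, (x.1 ((D : ℤ) * (k + 1))).2) := by
  have hs : ∀ q : ℕ, 1 ≤ q → q ≤ D →
      (x.1 ((D : ℤ) * k + q)).2 = (x.1 ((D : ℤ) * k + 1)).2 := by
    intro q h1
    induction q, h1 using Nat.le_induction with
    | base => intro _; simp
    | succ q h1 ih =>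
      intro h2
      have ih' := ih (by omega)
      have hl := baseI_level hD x h0 k q (by omega)
      obtain ⟨_, _, hR⟩ := x.2 ((D : ℤ) * k + q)
      rw [hl] at hR
      have he : (D : ℤ) * k + q + 1 = (D : ℤ) * k + ((q + 1 : ℕ) : ℤ) := by push_cast; ring
      rw [he] at hR
      rcases hR with h | h | h
      · omega
      · rw [h.2.2.2, ih']
      · rw [h.2.2.2, ih']
  have hDD := hs D (by omega) le_rfl
  have he : (D : ℤ) * k + (D : ℤ) = (D : ℤ) * (k + 1) := by ring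
  rw [he] at hDD
  constructor
  · have hl := baseI_level hD x h0 k 0 (by omega)
    have hR := x.2 ((D : ℤ) * k)
    simp only [Nat.cast_zero, add_zero] at hl
    obtain ⟨_, _, hR⟩ := hR
    rw [hl] at hR
    rcases hR with h | h | h
    · rw [hDD]; exact h.2.2
    · exact absurd rfl h.1
    · exact absurd rfl h.1
  · intro q h1 h2
    refine Prod.ext (baseI_level hD x h0 k q h2) ?_
    show (x.1 ((D : ℤ) * k + q)).2 = (x.1 ((D : ℤ) * (k + 1))).2
    rw [hs q h1 h2.le, hDD]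

lemma divI_lem (hD : 2 ≤ D) (k : ℤ) (q : ℕ) (hq : q < D) : ((D : ℤ) * k + q) / (D : ℤ) = k ∧
    (((D : ℤ) * k + q) % (D : ℤ)).toNat = q := by
  have hL : (0 : ℤ) < D := by omega
  have h := (Int.ediv_emod_unique (a := (D : ℤ) * k + q) (q := k) (r := q) hL).2
    ⟨by rw [add_comm], by positivity, by exact_mod_cast hq⟩
  refine ⟨h.1, ?_⟩
  rw [h.2]; simp

lemma existsI_div (hD : 2 ≤ D) (t : ℤ) : ∃ (k : ℤ) (q : ℕ), q < D ∧ t = (D : ℤ) * k + q := by
  have hL : (0 : ℤ) < D := by omega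
  have h1 := Int.emod_nonneg t hL.ne'
  have h2 := Int.emod_lt_of_pos t hL
  have h3 := Int.mul_ediv_add_emod t D
  refine ⟨t / D, (t % D).toNat, ?_, ?_⟩
  · omega
  · rw [Int.toNat_of_nonneg h1]; exact h3.symm

/-- the path with idle steps -/
def unI (D : ℕ) (y : ℤ → T3) (t : ℤ) : ℕ × T3 :=
  if (t % (D : ℤ)).toNat = 0 then (0, y (t / (D : ℤ)))
  else ((t % (D : ℤ)).toNat, y (t / (D : ℤ) + 1))

lemma unI_zero (hD : 2 ≤ D) (y : ℤ → T3) (k : ℤ) : unI D y ((D : ℤ) * k) = (0, y k) := by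
  obtain ⟨h1, h2⟩ := divI_lem hD k 0 (by omega)
  simp only [Nat.cast_zero, add_zero] at h1 h2
  unfold unI
  rw [h1, h2, if_pos rfl]

lemma unI_pos (hD : 2 ≤ D) (y : ℤ → T3) (k : ℤ) (q : ℕ) (h0 : 1 ≤ q) (hq : q < D) :
    unI D y ((D : ℤ) * k + q) = (q, y (k + 1)) := by
  obtain ⟨h1, h2⟩ := divI_lem hD k q hq
  unfold unI
  rw [h1, h2, if_neg (by omega)]

lemma unI_rel (hD : 2 ≤ D) (hB : ∀ u w, R u w → Box K u ∧ Box K w) (y : SS T3 R) (t : ℤ) :
    relI K D R (unI D y.1 t) (unI D y.1 (t + 1)) := by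
  obtain ⟨k, q, hq, rfl⟩ := existsI_div hD t
  have hb : ∀ j, Box K (y.1 j) := fun j => (hB _ _ (y.2 j)).1
  rcases Nat.eq_zero_or_pos q with h | h
  · subst h
    rw [show (D : ℤ) * k + ((0 : ℕ) : ℤ) + 1 = (D : ℤ) * k + ((1 : ℕ) : ℤ) by push_cast; ring,
      unI_pos hD _ _ 1 le_rfl (by omega)]
    rw [Nat.cast_zero, add_zero, unI_zero hD]
    exact ⟨hb _, hb _, Or.inl ⟨rfl, rfl, y.2 k⟩⟩
  · rw [unI_pos hD _ _ q h hq]
    rcases Nat.lt_or_ge (q + 1) D with h' | h'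
    · rw [show (D : ℤ) * k + q + 1 = (D : ℤ) * k + ((q + 1 : ℕ) : ℤ) by push_cast; ring,
        unI_pos hD _ _ (q + 1) (by omega) h']
      exact ⟨hb _, hb _, Or.inr (Or.inl ⟨by simp only; omega, h', rfl, rfl⟩)⟩
    · have hqD : q + 1 = D := by omega
      rw [show (D : ℤ) * k + q + 1 = (D : ℤ) * (k + 1) by rw [← hqD]; push_cast; ring,
        unI_zero hD]
      exact ⟨hb _, hb _, Or.inr (Or.inr ⟨by simp only; omega, hqD, rfl, rfl⟩)⟩

/-- the base of the shift with idle steps -/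
theorem baseI_conj (hD : 2 ≤ D) (hB : ∀ u w, R u w → Box K u ∧ Box K w) :
    FConj (gradI K hD R).base (SS.flow T3 R) := by
  refine ⟨{ toFun := fun x => ⟨fun k => (x.1.1 ((D : ℤ) * k)).2, fun k => ?_⟩
            invFun := fun y => ⟨⟨unI D y.1, unI_rel hD hB y⟩, ?_⟩
            left_inv := ?_
            right_inv := ?_
            continuous_toFun := ?_
            continuous_invFun := ?_ }, ?_⟩
  · exact (baseI_det hD x.1 x.2 k).1
  · show (((unI D y.1 0).1 : ℕ) : ZMod D) = 0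
    have h := unI_zero hD y.1 0
    rw [mul_zero] at h
    rw [h]
    simp
  · intro x
    refine Subtype.ext (Subtype.ext (funext fun t => ?_))
    obtain ⟨k, q, hq, rfl⟩ := existsI_div hD t
    show unI D _ _ = x.1.1 _
    rcases Nat.eq_zero_or_pos q with h | h
    · subst h
      rw [Nat.cast_zero, add_zero, unI_zero hD]
      have hl := baseI_level hD x.1 x.2 k 0 (by omega)
      simp only [Nat.cast_zero, add_zero] at hl
      exact Prod.ext hl.symm rfl
    · rw [unI_pos hD _ _ q h hq]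
      exact ((baseI_det hD x.1 x.2 k).2 q h hq).symm
  · intro y
    refine Subtype.ext (funext fun k => ?_)
    show (unI D y.1 ((D : ℤ) * k)).2 = y.1 k
    rw [unI_zero hD]
  · refine Continuous.subtype_mk ?_ _
    refine continuous_pi (fun k => ?_)
    exact continuous_snd.comp ((SS.cont_coord _).comp continuous_subtype_val)
  · refine Continuous.subtype_mk (Continuous.subtype_mk ?_ _) _
    refine continuous_pi (fun t => ?_)
    by_cases ht : (t % (D : ℤ)).toNat = 0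
    · have : (fun y : SS T3 R => unI D y.1 t) = fun y => ((0 : ℕ), y.1 (t / (D : ℤ))) := by
        funext y; unfold unI; rw [if_pos ht]
      rw [this]
      exact continuous_const.prodMk (SS.cont_coord _)
    · have : (fun y : SS T3 R => unI D y.1 t) =
          fun y => ((t % (D : ℤ)).toNat, y.1 (t / (D : ℤ) + 1)) := by
        funext y; unfold unI; rw [if_neg ht]
      rw [this]
      exact continuous_const.prodMk (SS.cont_coord _)
  · intro b x
    refine Subtype.ext (funext fun k => ?_)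
    show (x.1.1 ((D : ℤ) * k + (D : ℤ) * b)).2 = (x.1.1 ((D : ℤ) * (k + b))).2
    rw [mul_add]

end Pool.R453.Sse
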