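import Pool.Agent.R453.Sse.Base

set_option autoImplicit false

namespace Pool.R453.Sse

open Topology

/-- the matrix given by a list of rows (missing entries are `0`, superfluous ones ignored) -/
def mat (l : List (List ℕ)) : Matrix (Fin l.length) (Fin l.length) ℕ :=
  Matrix.of fun i j => (l.getD (i : ℕ) []).getD (j : ℕ) 0

/-- entries of the matrix, extended by zero -/
def ent (l : List (List ℕ)) (i j : ℕ) : ℕ :=
  if i < l.length ∧ j < l.length then (l.getD i []).getD j 0 else 0

instance (a : ℕ → ℕ → ℕ) (K : ℕ) (u w : T3) : Decidable (relT a K u w) := by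
  unfold relT; infer_instance

/-- decoding of a vertex -/
def dc (K v : ℕ) : T3 := (v / (K * K + 1) / K, v / (K * K + 1) % K, v % (K * K + 1))

/-- the entry of the sparse matrix -/
def tent (a : ℕ → ℕ → ℕ) (K v w : ℕ) : ℕ := if relT a K (dc K v) (dc K w) then 1 else 0

/-- the size of the sparse matrix -/
def NN (K : ℕ) : ℕ := (2 * (K * K) + 2) * K * (K * K + 1)

/-- the sparse matrix `T_K(l)` -/
def TT (K : ℕ) (l : List (List ℕ)) : List (List ℕ) :=
  (List.range (NN K)).map fun v => (List.range (NN K)).map fun w => tent (ent l) K v w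

lemma TT_length (K : ℕ) (l : List (List ℕ)) : (TT K l).length = NN K := by simp [TT]

lemma getD_TT (K : ℕ) (l : List (List ℕ)) (v w : ℕ) (hv : v < NN K) (hw : w < NN K) :
    ((TT K l).getD v []).getD w 0 = tent (ent l) K v w := by
  have h1 : (TT K l).getD v [] = (List.range (NN K)).map (fun w => tent (ent l) K v w) := by
    have hv' : v < (TT K l).length := by rw [TT_length]; exact hv
    rw [List.getD_eq_getElem _ _ hv']
    simp [TT]
  rw [h1, List.getD_eq_getElem _ _ (by simpa using hw)]
  simp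

lemma mat_TT (K : ℕ) (l : List (List ℕ)) (v w : Fin (TT K l).length) :
    mat (TT K l) v w = tent (ent l) K v w :=
  getD_TT K l v w (v.2.trans_eq (TT_length K l)) (w.2.trans_eq (TT_length K l))

lemma dc_inj (K : ℕ) : Function.Injective (dc K) := by
  intro v w h
  simp only [dc, Prod.mk.injEq] at h
  obtain ⟨h1, h2, h3⟩ := h
  have e1 := Nat.div_add_mod (v / (K * K + 1)) K
  have e2 := Nat.div_add_mod (w / (K * K + 1)) K
  have e3 := Nat.div_add_mod v (K * K + 1)
  have e4 := Nat.div_add_mod w (K * K + 1)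
  rw [h1, h2, e2] at e1
  rw [← e1, h3, e4] at e3
  exact e3.symm

lemma dc_code {K q i p : ℕ} (hi : i < K) (hp : p < K * K + 1) :
    dc K ((q * K + i) * (K * K + 1) + p) = (q, i, p) := by
  have h1 : ((q * K + i) * (K * K + 1) + p) / (K * K + 1) = q * K + i := by
    rw [add_comm, Nat.add_mul_div_right _ _ (by omega), Nat.div_eq_of_lt hp, zero_add]
  have h2 : ((q * K + i) * (K * K + 1) + p) % (K * K + 1) = p := by
    rw [add_comm, Nat.add_mul_mod_self_right, Nat.mod_eq_of_lt hp]
  simp only [dc]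
  rw [h1, h2, code_div hi, code_mod hi]

lemma code_lt_NN {K q i p : ℕ} (hq : q < Lv K) (hi : i < K) (hp : p < K * K + 1) :
    (q * K + i) * (K * K + 1) + p < NN K := by
  have h1 : q * K + i + 1 ≤ Lv K * K := by
    have : (q + 1) * K ≤ Lv K * K := Nat.mul_le_mul_right K hq
    have h2 : (q + 1) * K = q * K + K := by ring
    omega
  have h3 : (q * K + i + 1) * (K * K + 1) ≤ Lv K * K * (K * K + 1) := Nat.mul_le_mul_right _ h1
  have h4 : (q * K + i + 1) * (K * K + 1) = (q * K + i) * (K * K + 1) + (K * K + 1) := by ring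
  have h5 : Lv K * K * (K * K + 1) = NN K := rfl
  omega

variable {a : ℕ → ℕ → ℕ} {K : ℕ}

lemma relT_bd {u w : T3} (h : relT a K u w) :
    (u.1 < Lv K ∧ u.2.1 < K ∧ u.2.2 < K * K + 1) ∧
    (w.1 < Lv K ∧ w.2.1 < K ∧ w.2.2 < K * K + 1) := by
  obtain ⟨h1, h2, h⟩ := h
  unfold Lv
  rcases h with h | h | h | h
  · refine ⟨⟨by omega, h1, by omega⟩, by omega, h2, by omega⟩
  · have p1 := lt_of_div h2 h.2.2.1
    have p2 := lt_of_div h1 h.2.2.2.1
    refine ⟨⟨by omega, h1, by omega⟩, by omega, h2, by omega⟩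
  · refine ⟨⟨by omega, h1, by omega⟩, by omega, h2, by omega⟩
  · refine ⟨⟨by omega, h1, by omega⟩, by omega, h2, by omega⟩

lemma exists_code {u : T3} (h : u.1 < Lv K ∧ u.2.1 < K ∧ u.2.2 < K * K + 1) (l : List (List ℕ)) :
    ∃ v : Fin (TT K l).length, dc K v = u := by
  refine ⟨⟨(u.1 * K + u.2.1) * (K * K + 1) + u.2.2, ?_⟩, ?_⟩
  · rw [TT_length]; exact code_lt_NN h.1 h.2.1 h.2.2
  · exact dc_code h.2.1 h.2.2

theorem TT_conj (K : ℕ) (l : List (List ℕ)) :
    FConj (eflow (mat (TT K l))) (SS.flow T3 (relT (ent l) K)) := by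
  refine vertex_code (mat (TT K l)) (fun v => dc K v) (relT (ent l) K) ?_ ?_ ?_ ?_
  · intro v w h
    exact Fin.ext (dc_inj K h)
  · intro v w
    rw [mat_TT]; unfold tent; split_ifs <;> omega
  · intro v w
    rw [mat_TT]; unfold tent; split_ifs with h
    · simp [h]
    · simp [h]
  · intro u w h
    obtain ⟨h1, h2⟩ := relT_bd h
    obtain ⟨v, hv⟩ := exists_code h1 l
    obtain ⟨v', hv'⟩ := exists_code h2 l
    exact ⟨v, v', hv, hv'⟩

/-- `K` bounds the size and the entries -/
def Bd (K : ℕ) (l : List (List ℕ)) : Prop :=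
  l.length ≤ K ∧ ∀ i j, mat l i j ≤ K

lemma good_of_bd {l : List (List ℕ)} (h : Bd K l) : Good (ent l) K := by
  constructor
  · intro i j
    unfold ent
    split_ifs with hij
    · exact h.2 ⟨i, hij.1⟩ ⟨j, hij.2⟩
    · omega
  · intro i j hne
    unfold ent at hne
    split_ifs at hne with hij
    · have := h.1
      omega
    · omega

theorem mat_conj {l : List (List ℕ)} : FConj (eflow (mat l)) (SS.flow T3 (relE (ent l))) := by
  refine edge_code (mat l) (ent l) ?_ ?_
  · intro i j
    unfold ent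
    rw [if_pos ⟨i.2, j.2⟩]
    rfl
  · intro i j hne
    unfold ent at hne
    split_ifs at hne with hij
    · exact hij
    · omega

theorem main_conj {l l' : List (List ℕ)} (h : Bd K l) (h' : Bd K l') :
    Conj (mat l) (mat l') ↔ Conj (mat (TT K l)) (mat (TT K l')) := by
  have g := good_of_bd h
  have g' := good_of_bd h'
  rw [conj_iff, conj_iff]
  constructor
  · intro H
    have H1 : FConj (gradT (ent l) K).base (gradT (ent l') K).base :=
      (((base_conj g).trans mat_conj.symm).trans H).trans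
        ((base_conj g').trans mat_conj.symm).symm
    have H2 := conj_of_base _ _ H1
    exact ((TT_conj K l).trans H2).trans (TT_conj K l').symm
  · intro H
    have H1 : FConj (SS.flow T3 (relT (ent l) K)) (SS.flow T3 (relT (ent l') K)) :=
      ((TT_conj K l).symm.trans H).trans (TT_conj K l')
    have H2 := base_of_conj (gradT (ent l) K) (gradT (ent l') K) H1
    exact ((((base_conj g).trans mat_conj.symm).symm).trans H2).trans
      ((base_conj g').trans mat_conj.symm)

/-! ### degrees -/

lemma out_le {u : T3} (hu : u.1 ≤ K * K) :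
    ∃ s1 s2 : T3, ∀ w, relT a K u w → w = s1 ∨ w = s2 := by
  rcases Nat.lt_or_ge u.1 (K * K) with h | h
  · refine ⟨(u.1 + 1, u.2.1, u.2.2), (u.1 + 1, u.2.1, u.1 + 1), fun w hw => ?_⟩
    obtain ⟨_, _, hw⟩ := hw
    rcases hw with h1 | h1 | h1 | h1
    · obtain ⟨_, h2, h3, _, h4⟩ := h1
      rcases h4 with h4 | h4
      · left; exact Prod.ext h2 (Prod.ext h3 h4)
      · right; exact Prod.ext h2 (Prod.ext h3 h4.2)
    · omega
    · omega
    · omega
  · refine ⟨(u.1 + 1, u.2.2 / K, u.2.1 * K + u.2.2 % K), 0, fun w hw => Or.inl ?_⟩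
    obtain ⟨_, _, hw⟩ := hw
    rcases hw with h1 | h1 | h1 | h1
    · omega
    · obtain ⟨_, h2, h3, h4, h5, _⟩ := h1
      refine Prod.ext h2 (Prod.ext h3 ?_)
      show w.2.2 = u.2.1 * K + u.2.2 % K
      rw [h4, h5, Nat.div_add_mod']
    · omega
    · omega

lemma in_le {u : T3} (hu : u.1 ≤ K * K) :
    ∃ s : T3, ∀ w, relT a K w u → w = s := by
  rcases Nat.eq_zero_or_pos u.1 with h | h
  · refine ⟨(2 * (K * K) + 1, u.2.1, 0), fun w hw => ?_⟩
    obtain ⟨_, _, hw⟩ := hw
    rcases hw with h1 | h1 | h1 | h1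
    · omega
    · omega
    · omega
    · exact Prod.ext h1.1 (Prod.ext h1.2.2.1.symm h1.2.2.2.1)
  · refine ⟨(u.1 - 1, u.2.1, min u.2.2 (u.1 - 1)), fun w hw => ?_⟩
    obtain ⟨_, _, hw⟩ := hw
    rcases hw with h1 | h1 | h1 | h1
    · obtain ⟨h2, h3, h4, h5, h6⟩ := h1
      refine Prod.ext ?_ (Prod.ext h4.symm ?_)
      · show w.1 = u.1 - 1
        omega
      · show w.2.2 = min u.2.2 (u.1 - 1)
        omega
    · omega
    · omega
    · omega

lemma out_gt {u : T3} (hu : K * K < u.1) :
    ∃ s : T3, ∀ w, relT a K u w → w = s := by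
  rcases Nat.lt_or_ge u.1 (2 * (K * K) + 1) with h | h
  · refine ⟨(u.1 + 1, u.2.1, min u.2.2 (2 * (K * K) - u.1)), fun w hw => ?_⟩
    obtain ⟨_, _, hw⟩ := hw
    rcases hw with h1 | h1 | h1 | h1
    · omega
    · omega
    · obtain ⟨_, h2, h3, h4, h5, h6⟩ := h1
      refine Prod.ext h3 (Prod.ext h4 ?_)
      show w.2.2 = min u.2.2 (2 * (K * K) - u.1)
      omega
    · omega
  · refine ⟨(0, u.2.1, 0), fun w hw => ?_⟩
    obtain ⟨_, _, hw⟩ := hw
    rcases hw with h1 | h1 | h1 | h1
    · omega
    · omega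
    · omega
    · exact Prod.ext h1.2.1 (Prod.ext h1.2.2.1 h1.2.2.2.2)

lemma in_gt {u : T3} (hu : K * K < u.1) :
    ∃ s1 s2 : T3, ∀ w, relT a K w u → w = s1 ∨ w = s2 := by
  rcases Nat.lt_or_ge (K * K + 1) u.1 with h | h
  · refine ⟨(u.1 - 1, u.2.1, u.2.2), (u.1 - 1, u.2.1, u.2.2 + 1), fun w hw => ?_⟩
    obtain ⟨_, _, hw⟩ := hw
    rcases hw with h1 | h1 | h1 | h1
    · omega
    · omega
    · obtain ⟨_, h2, h3, h4, h5, h6⟩ := h1
      have h7 : w.1 = u.1 - 1 := by omega
      rcases h6 with h6 | h6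
      · left; exact Prod.ext h7 (Prod.ext h4.symm h6)
      · right; exact Prod.ext h7 (Prod.ext h4.symm h6.2)
    · omega
  · refine ⟨(K * K, u.2.2 / K, u.2.1 * K + u.2.2 % K), 0, fun w hw => Or.inl ?_⟩
    obtain ⟨_, _, hw⟩ := hw
    rcases hw with h1 | h1 | h1 | h1
    · omega
    · obtain ⟨h0, h2, h3, h4, h5, _⟩ := h1
      refine Prod.ext h0 (Prod.ext h4 ?_)
      show w.2.2 = u.2.1 * K + u.2.2 % K
      rw [h3, ← h5, Nat.div_add_mod']
    · omega
    · omega

lemma card_two {n : ℕ} {f : Fin n → T3} (hf : Function.Injective f) (P : T3 → Prop)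
    [DecidablePred P] {s1 s2 : T3} (h : ∀ w, P w → w = s1 ∨ w = s2) :
    (Finset.univ.filter (fun w => P (f w))).card ≤ 2 := by
  calc (Finset.univ.filter (fun w => P (f w))).card ≤ ({s1, s2} : Finset T3).card := by
        apply Finset.card_le_card_of_injOn f
        · intro w hw
          simp only [Finset.coe_filter, Finset.mem_univ, true_and, Set.mem_ofPred_eq] at hw
          have := h _ hw
          simpa using this
        · exact hf.injOn
    _ ≤ 2 := Finset.card_le_two

lemma card_one {n : ℕ} {f : Fin n → T3} (hf : Function.Injective f) (P : T3 → Prop)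
    [DecidablePred P] {s1 : T3} (h : ∀ w, P w → w = s1) :
    (Finset.univ.filter (fun w => P (f w))).card ≤ 1 := by
  calc (Finset.univ.filter (fun w => P (f w))).card ≤ ({s1} : Finset T3).card := by
        apply Finset.card_le_card_of_injOn f
        · intro w hw
          simp only [Finset.coe_filter, Finset.mem_univ, true_and, Set.mem_ofPred_eq] at hw
          have := h _ hw
          simpa using this
        · exact hf.injOn
    _ ≤ 1 := by simp

/-- a 0-1 matrix in which every row sum plus the corresponding column sum is at most 3 -/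
def Sparse (l : List (List ℕ)) : Prop :=
  (∀ i j, mat l i j ≤ 1) ∧ ∀ i, ∑ j, mat l i j + ∑ j, mat l j i ≤ 3

theorem TT_sparse (K : ℕ) (l : List (List ℕ)) : Sparse (TT K l) := by
  constructor
  · intro v w
    rw [mat_TT]; unfold tent; split_ifs <;> omega
  · intro v
    have hinj : Function.Injective (fun w : Fin (TT K l).length => dc K (w : ℕ)) :=
      fun x y h => Fin.ext (dc_inj K h)
    have e1 : ∑ w, mat (TT K l) v w =
        (Finset.univ.filter (fun w : Fin (TT K l).length =>
          relT (ent l) K (dc K v) (dc K w))).card := by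
      rw [Finset.card_filter]
      refine Finset.sum_congr rfl fun w _ => ?_
      rw [mat_TT]; rfl
    have e2 : ∑ w, mat (TT K l) w v =
        (Finset.univ.filter (fun w : Fin (TT K l).length =>
          relT (ent l) K (dc K w) (dc K v))).card := by
      rw [Finset.card_filter]
      refine Finset.sum_congr rfl fun w _ => ?_
      rw [mat_TT]; rfl
    rw [e1, e2]
    rcases Nat.lt_or_ge (K * K) (dc K v).1 with h | h
    · obtain ⟨s, hs⟩ := out_gt (a := ent l) h
      obtain ⟨s1, s2, hs'⟩ := in_gt (a := ent l) h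
      have c1 := card_one hinj (fun t => relT (ent l) K (dc K v) t) hs
      have c2 := card_two hinj (fun t => relT (ent l) K t (dc K v)) hs'
      omega
    · obtain ⟨s, hs⟩ := in_le (a := ent l) h
      obtain ⟨s1, s2, hs'⟩ := out_le (a := ent l) h
      have c1 := card_one hinj (fun t => relT (ent l) K t (dc K v)) hs
      have c2 := card_two hinj (fun t => relT (ent l) K (dc K v) t) hs'
      omega

end Pool.R453.Sse
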