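import Pool.Agent.R453.Sse.Idle

set_option autoImplicit false

namespace Pool.R453.Sse

open Topology

/-- the edge shift of a 0-1 matrix is conjugate to the vertex shift, with coded vertices -/
theorem vertex_code' {E : Type} [TopologicalSpace E] [DiscreteTopology E] {N : ℕ}
    (M : Matrix (Fin N) (Fin N) ℕ) (dec : Fin N → E)
    (R : E → E → Prop) (hdec : Function.Injective dec)
    (hM : ∀ v w, M v w ≤ 1) (hR : ∀ v w, M v w = 1 ↔ R (dec v) (dec w))
    (hs : ∀ a b, R a b → ∃ v w, dec v = a ∧ dec w = b) :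
    FConj (eflow M) (SS.flow E R) := by
  refine FConj.trans (alph (E' := E × E)
    (r' := fun e f => R e.1 e.2 ∧ R f.1 f.2 ∧ e.2 = f.1)
    (fun e : Edge M => (dec e.1, dec e.2.1)) ?_ ?_ ?_) ?_
  · rintro ⟨i, j, c⟩ ⟨i', j', c'⟩ h
    simp only [Prod.mk.injEq] at h
    obtain ⟨h1, h2⟩ := h
    have h1' := hdec h1
    have h2' := hdec h2
    subst h1' h2'
    have h3' : c = c' := by
      have := hM i j
      have := c.2
      have := c'.2
      apply Fin.ext
      omega
    subst h3'
    rfl
  · rintro ⟨i, j, c⟩ ⟨i', j', c'⟩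
    constructor
    · intro h
      refine ⟨?_, ?_, congrArg dec h⟩
      · show R (dec i) (dec j)
        rw [← hR]
        have := hM i j
        have := c.2
        omega
      · show R (dec i') (dec j')
        rw [← hR]
        have := hM i' j'
        have := c'.2
        omega
    · rintro ⟨_, _, h⟩
      exact hdec h
  · rintro ⟨a, b⟩ b' ⟨h1, _, _⟩
    obtain ⟨v, w, hv, hw⟩ := hs a b h1
    have h1' : R (dec v) (dec w) := by rw [hv, hw]; exact h1
    rw [← hR] at h1'
    refine ⟨⟨v, w, ⟨0, by omega⟩⟩, ?_⟩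
    show (dec v, dec w) = (a, b)
    rw [hv, hw]
  · refine ⟨{ toFun := fun x => ⟨fun k => (x.1 k).1, fun k => ?_⟩
              invFun := fun y => ⟨fun k => (y.1 k, y.1 (k + 1)), fun k => ?_⟩
              left_inv := ?_
              right_inv := ?_
              continuous_toFun := ?_
              continuous_invFun := ?_ }, ?_⟩
    · obtain ⟨h1, h2, h3⟩ := x.2 k
      show R (x.1 k).1 (x.1 (k + 1)).1
      exact h3 ▸ h1
    · exact ⟨y.2 k, y.2 (k + 1), rfl⟩
    · intro x
      refine Subtype.ext (funext fun k => ?_)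
      obtain ⟨h1, h2, h3⟩ := x.2 k
      show ((x.1 k).1, (x.1 (k + 1)).1) = x.1 k
      exact Prod.ext rfl h3.symm
    · intro y
      refine Subtype.ext (funext fun k => ?_)
      rfl
    · refine Continuous.subtype_mk ?_ _
      exact continuous_pi (fun k => continuous_fst.comp (SS.cont_coord k))
    · refine Continuous.subtype_mk ?_ _
      exact continuous_pi (fun k => (SS.cont_coord k).prodMk (SS.cont_coord (k + 1)))
    · intro a x
      rfl

instance (K : ℕ) (u : T3) : Decidable (Box K u) := by unfold Box; infer_instance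

instance (K D : ℕ) (R : T3 → T3 → Prop) [∀ u w, Decidable (R u w)] (x y : ℕ × T3) :
    Decidable (relI K D R x y) := by unfold relI; infer_instance

/-- decoding of a vertex -/
def dcI (D K v : ℕ) : ℕ × T3 := (v % D, dc K (v / D))

/-- the entry of the matrix with idle steps -/
def tentI (a : ℕ → ℕ → ℕ) (D K v w : ℕ) : ℕ :=
  if relI K D (relT a K) (dcI D K v) (dcI D K w) then 1 else 0

/-- the matrix with idle steps -/
def TI (D K : ℕ) (l : List (List ℕ)) : List (List ℕ) :=
  (List.range (NN K * D)).map fun v => (List.range (NN K * D)).map fun w =>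
    tentI (ent l) D K v w

lemma TI_length (D K : ℕ) (l : List (List ℕ)) : (TI D K l).length = NN K * D := by simp [TI]

lemma getD_TI (D K : ℕ) (l : List (List ℕ)) (v w : ℕ) (hv : v < NN K * D) (hw : w < NN K * D) :
    ((TI D K l).getD v []).getD w 0 = tentI (ent l) D K v w := by
  have h1 : (TI D K l).getD v [] =
      (List.range (NN K * D)).map (fun w => tentI (ent l) D K v w) := by
    have hv' : v < (TI D K l).length := by rw [TI_length]; exact hv
    rw [List.getD_eq_getElem _ _ hv']
    simp [TI]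
  rw [h1, List.getD_eq_getElem _ _ (by simpa using hw)]
  simp

lemma mat_TI (D K : ℕ) (l : List (List ℕ)) (v w : Fin (TI D K l).length) :
    mat (TI D K l) v w = tentI (ent l) D K v w :=
  getD_TI D K l v w (v.2.trans_eq (TI_length D K l)) (w.2.trans_eq (TI_length D K l))

lemma dcI_inj (D K : ℕ) : Function.Injective (dcI D K) := by
  intro v w h
  simp only [dcI, Prod.mk.injEq] at h
  obtain ⟨h1, h2⟩ := h
  have h3 := dc_inj K h2
  have e1 := Nat.div_add_mod v D
  have e2 := Nat.div_add_mod w D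
  rw [h3, h1, e2] at e1
  exact e1.symm

variable {a : ℕ → ℕ → ℕ} {K D : ℕ}

lemma box_code {u : T3} (h : Box K u) : ∃ c, c < NN K ∧ dc K c = u :=
  ⟨(u.1 * K + u.2.1) * (K * K + 1) + u.2.2, code_lt_NN h.1 h.2.1 h.2.2, dc_code h.2.1 h.2.2⟩

lemma existsI_code {x : ℕ × T3} (h1 : x.1 < D) (h2 : Box K x.2) (l : List (List ℕ)) :
    ∃ v : Fin (TI D K l).length, dcI D K v = x := by
  obtain ⟨c, hc, hcu⟩ := box_code h2
  have h3 : c * D + x.1 < NN K * D := by
    have : (c + 1) * D ≤ NN K * D := Nat.mul_le_mul_right _ hc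
    have h4 : (c + 1) * D = c * D + D := by ring
    omega
  refine ⟨⟨c * D + x.1, ?_⟩, ?_⟩
  · rw [TI_length]; exact h3
  · show ((c * D + x.1) % D, dc K ((c * D + x.1) / D)) = x
    rw [code_mod h1, code_div h1, hcu]

theorem TI_conj (hD : 2 ≤ D) (K : ℕ) (l : List (List ℕ)) :
    FConj (eflow (mat (TI D K l))) (SS.flow (ℕ × T3) (relI K D (relT (ent l) K))) := by
  refine vertex_code' (mat (TI D K l)) (fun v => dcI D K v) _ ?_ ?_ ?_ ?_
  · intro v w h
    exact Fin.ext (dcI_inj D K h)
  · intro v w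
    rw [mat_TI]; unfold tentI; split_ifs <;> omega
  · intro v w
    rw [mat_TI]; unfold tentI; split_ifs with h
    · simp [h]
    · simp [h]
  · intro x y h
    have hx := levelI_lt hD h
    have hy : y.1 < D := by
      obtain ⟨_, _, h'⟩ := h
      rcases h' with h' | h' | h' <;> omega
    obtain ⟨v, hv⟩ := existsI_code hx h.1 l
    obtain ⟨w, hw⟩ := existsI_code hy h.2.1 l
    exact ⟨v, w, hv, hw⟩

lemma relT_box {u w : T3} (h : relT a K u w) : Box K u ∧ Box K w := relT_bd h

theorem mainI_conj (hD : 2 ≤ D) {l l' : List (List ℕ)} (h : Bd K l) (h' : Bd K l') :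
    Conj (mat l) (mat l') ↔ Conj (mat (TI D K l)) (mat (TI D K l')) := by
  rw [main_conj h h', conj_iff, conj_iff]
  have : NeZero D := ⟨by omega⟩
  have hb := baseI_conj (K := K) hD (R := relT (ent l) K) (fun u w => relT_box)
  have hb' := baseI_conj (K := K) hD (R := relT (ent l') K) (fun u w => relT_box)
  constructor
  · intro H
    have H1 : FConj (gradI K hD (relT (ent l) K)).base (gradI K hD (relT (ent l') K)).base :=
      (((hb.trans (TT_conj K l).symm).trans H).trans (TT_conj K l')).trans hb'.symm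
    exact ((TI_conj hD K l).trans (conj_of_base _ _ H1)).trans (TI_conj hD K l').symm
  · intro H
    have H1 : FConj (SS.flow (ℕ × T3) (relI K D (relT (ent l) K)))
        (SS.flow (ℕ × T3) (relI K D (relT (ent l') K))) :=
      ((TI_conj hD K l).symm.trans H).trans (TI_conj hD K l')
    have H2 := base_of_conj (gradI K hD (relT (ent l) K)) (gradI K hD (relT (ent l') K)) H1
    exact ((((TT_conj K l).trans hb.symm).trans H2).trans hb').trans (TT_conj K l').symm

/-! ### degrees -/

lemma out_ge {u : T3} (hu : K * K ≤ u.1) : ∃ s : T3, ∀ w, relT a K u w → w = s := by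
  rcases Nat.lt_or_ge (K * K) u.1 with h | h
  · exact out_gt h
  · refine ⟨(u.1 + 1, u.2.2 / K, u.2.1 * K + u.2.2 % K), fun w hw => ?_⟩
    obtain ⟨_, _, hw⟩ := hw
    rcases hw with h1 | h1 | h1 | h1
    · omega
    · obtain ⟨_, h2, h3, h4, h5, _⟩ := h1
      refine Prod.ext h2 (Prod.ext h3 ?_)
      show w.2.2 = u.2.1 * K + u.2.2 % K
      rw [h4, h5, Nat.div_add_mod']
    · omega
    · omega

lemma out_two (u : T3) : ∃ s1 s2 : T3, ∀ w, relT a K u w → w = s1 ∨ w = s2 := by
  rcases Nat.lt_or_ge (K * K) u.1 with h | h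
  · obtain ⟨s, hs⟩ := out_gt (a := a) h
    exact ⟨s, s, fun w hw => Or.inl (hs w hw)⟩
  · exact out_le h

lemma in_two (u : T3) : ∃ s1 s2 : T3, ∀ w, relT a K w u → w = s1 ∨ w = s2 := by
  rcases Nat.lt_or_ge (K * K) u.1 with h | h
  · exact in_gt h
  · obtain ⟨s, hs⟩ := in_le (a := a) h
    exact ⟨s, s, fun w hw => Or.inl (hs w hw)⟩

lemma outI_one {x : ℕ × T3} (h : x.1 ≠ 0 ∨ K * K ≤ x.2.1) :
    ∃ z, ∀ y, relI K D (relT a K) x y → y = z := by
  by_cases h0 : x.1 = 0
  · obtain ⟨s, hs⟩ := out_ge (a := a) (h.resolve_left (by omega))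
    refine ⟨(1, s), fun y hy => ?_⟩
    obtain ⟨_, _, hy⟩ := hy
    rcases hy with h1 | h1 | h1
    · exact Prod.ext h1.2.1 (hs _ h1.2.2)
    · exact absurd h0 h1.1
    · exact absurd h0 h1.1
  · by_cases h2 : x.1 + 1 < D
    · refine ⟨(x.1 + 1, x.2), fun y hy => ?_⟩
      obtain ⟨_, _, hy⟩ := hy
      rcases hy with h1 | h1 | h1
      · exact absurd h1.1 h0
      · exact Prod.ext h1.2.2.1 h1.2.2.2
      · omega
    · refine ⟨(0, x.2), fun y hy => ?_⟩
      obtain ⟨_, _, hy⟩ := hy
      rcases hy with h1 | h1 | h1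
      · exact absurd h1.1 h0
      · omega
      · exact Prod.ext h1.2.2.1 h1.2.2.2

lemma outI_two (x : ℕ × T3) : ∃ z1 z2, ∀ y, relI K D (relT a K) x y → y = z1 ∨ y = z2 := by
  by_cases h0 : x.1 = 0
  · obtain ⟨s1, s2, hs⟩ := out_two (a := a) (K := K) x.2
    refine ⟨(1, s1), (1, s2), fun y hy => ?_⟩
    obtain ⟨_, _, hy⟩ := hy
    rcases hy with h1 | h1 | h1
    · rcases hs _ h1.2.2 with h2 | h2
      · exact Or.inl (Prod.ext h1.2.1 h2)
      · exact Or.inr (Prod.ext h1.2.1 h2)
    · exact absurd h0 h1.1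
    · exact absurd h0 h1.1
  · obtain ⟨z, hz⟩ := outI_one (a := a) (K := K) (D := D) (x := x) (Or.inl h0)
    exact ⟨z, z, fun y hy => Or.inl (hz y hy)⟩

lemma inI_one {x : ℕ × T3} (h : x.1 ≠ 1 ∨ x.2.1 ≤ K * K) :
    ∃ z, ∀ y, relI K D (relT a K) y x → y = z := by
  by_cases h0 : x.1 = 1
  · obtain ⟨s, hs⟩ := in_le (a := a) (h.resolve_left (by omega))
    refine ⟨(0, s), fun y hy => ?_⟩
    obtain ⟨_, _, hy⟩ := hy
    rcases hy with h1 | h1 | h1
    · exact Prod.ext h1.1 (hs _ h1.2.2)
    · omega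
    · omega
  · by_cases h2 : x.1 = 0
    · refine ⟨(D - 1, x.2), fun y hy => ?_⟩
      obtain ⟨_, _, hy⟩ := hy
      rcases hy with h1 | h1 | h1
      · omega
      · omega
      · refine Prod.ext ?_ h1.2.2.2.symm
        show y.1 = D - 1
        omega
    · refine ⟨(x.1 - 1, x.2), fun y hy => ?_⟩
      obtain ⟨_, _, hy⟩ := hy
      rcases hy with h1 | h1 | h1
      · omega
      · refine Prod.ext ?_ h1.2.2.2.symm
        show y.1 = x.1 - 1
        omega
      · omega

lemma inI_two (x : ℕ × T3) : ∃ z1 z2, ∀ y, relI K D (relT a K) y x → y = z1 ∨ y = z2 := by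
  by_cases h0 : x.1 = 1
  · obtain ⟨s1, s2, hs⟩ := in_two (a := a) (K := K) x.2
    refine ⟨(0, s1), (0, s2), fun y hy => ?_⟩
    obtain ⟨_, _, hy⟩ := hy
    rcases hy with h1 | h1 | h1
    · rcases hs _ h1.2.2 with h2 | h2
      · exact Or.inl (Prod.ext h1.1 h2)
      · exact Or.inr (Prod.ext h1.1 h2)
    · omega
    · omega
  · obtain ⟨z, hz⟩ := inI_one (a := a) (K := K) (D := D) (x := x) (Or.inl h0)
    exact ⟨z, z, fun y hy => Or.inl (hz y hy)⟩

lemma card_two' {E : Type} [DecidableEq E] {n : ℕ} {f : Fin n → E}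
    (hf : Function.Injective f) (P : E → Prop)
    [DecidablePred P] {s1 s2 : E} (h : ∀ w, P w → w = s1 ∨ w = s2) :
    (Finset.univ.filter (fun w => P (f w))).card ≤ 2 := by
  calc (Finset.univ.filter (fun w => P (f w))).card ≤ ({s1, s2} : Finset E).card := by
        apply Finset.card_le_card_of_injOn f
        · intro w hw
          simp only [Finset.coe_filter, Finset.mem_univ, true_and, Set.mem_ofPred_eq] at hw
          have := h _ hw
          simpa using this
        · exact hf.injOn
    _ ≤ 2 := Finset.card_le_two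

lemma card_one' {E : Type} [DecidableEq E] {n : ℕ} {f : Fin n → E}
    (hf : Function.Injective f) (P : E → Prop)
    [DecidablePred P] {s1 : E} (h : ∀ w, P w → w = s1) :
    (Finset.univ.filter (fun w => P (f w))).card ≤ 1 := by
  calc (Finset.univ.filter (fun w => P (f w))).card ≤ ({s1} : Finset E).card := by
        apply Finset.card_le_card_of_injOn f
        · intro w hw
          simp only [Finset.coe_filter, Finset.mem_univ, true_and, Set.mem_ofPred_eq] at hw
          have := h _ hw
          simpa using this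
        · exact hf.injOn
    _ ≤ 1 := by simp

/-- total degree of a vertex: row sum plus column sum -/
def deg (l : List (List ℕ)) (v : Fin l.length) : ℕ := ∑ j, mat l v j + ∑ j, mat l j v

lemma deg_eq (D K : ℕ) (l : List (List ℕ)) (v : Fin (TI D K l).length) :
    deg (TI D K l) v =
      (Finset.univ.filter (fun w : Fin (TI D K l).length =>
        relI K D (relT (ent l) K) (dcI D K v) (dcI D K w))).card +
      (Finset.univ.filter (fun w : Fin (TI D K l).length =>
        relI K D (relT (ent l) K) (dcI D K w) (dcI D K v))).card := by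
  unfold deg
  congr 1
  · rw [Finset.card_filter]
    refine Finset.sum_congr rfl fun w _ => ?_
    rw [mat_TI]; rfl
  · rw [Finset.card_filter]
    refine Finset.sum_congr rfl fun w _ => ?_
    rw [mat_TI]; rfl

lemma dcI_inj' (D K : ℕ) (l : List (List ℕ)) :
    Function.Injective (fun w : Fin (TI D K l).length => dcI D K (w : ℕ)) :=
  fun _ _ h => Fin.ext (dcI_inj D K h)

lemma deg_le_three (D K : ℕ) (l : List (List ℕ)) (v : Fin (TI D K l).length) :
    deg (TI D K l) v ≤ 3 := by
  rw [deg_eq]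
  by_cases h : (dcI D K v).1 = 0
  · obtain ⟨s, hs⟩ := inI_one (a := ent l) (K := K) (D := D) (x := dcI D K v)
      (Or.inl (by omega))
    obtain ⟨s1, s2, hs'⟩ := outI_two (a := ent l) (K := K) (D := D) (dcI D K v)
    have c1 := card_one' (dcI_inj' D K l) (fun t => relI K D (relT (ent l) K) t (dcI D K v)) hs
    have c2 := card_two' (dcI_inj' D K l) (fun t => relI K D (relT (ent l) K) (dcI D K v) t) hs'
    omega
  · obtain ⟨s, hs⟩ := outI_one (a := ent l) (K := K) (D := D) (x := dcI D K v) (Or.inl h)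
    obtain ⟨s1, s2, hs'⟩ := inI_two (a := ent l) (K := K) (D := D) (dcI D K v)
    have c1 := card_one' (dcI_inj' D K l) (fun t => relI K D (relT (ent l) K) (dcI D K v) t) hs
    have c2 := card_two' (dcI_inj' D K l) (fun t => relI K D (relT (ent l) K) t (dcI D K v)) hs'
    omega

lemma deg_three (D K : ℕ) (l : List (List ℕ)) (v : Fin (TI D K l).length)
    (h : 2 < deg (TI D K l) v) :
    ((dcI D K v).1 = 0 ∧ (dcI D K v).2.1 < K * K) ∨
    ((dcI D K v).1 = 1 ∧ K * K < (dcI D K v).2.1) := by
  by_contra hcon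
  rw [not_or] at hcon
  obtain ⟨n1, n2⟩ := hcon
  obtain ⟨s, hs⟩ := outI_one (a := ent l) (K := K) (D := D) (x := dcI D K v) (by omega)
  obtain ⟨s1, hs'⟩ := inI_one (a := ent l) (K := K) (D := D) (x := dcI D K v) (by omega)
  have c1 := card_one' (dcI_inj' D K l) (fun t => relI K D (relT (ent l) K) (dcI D K v) t) hs
  have c2 := card_one' (dcI_inj' D K l) (fun t => relI K D (relT (ent l) K) t (dcI D K v)) hs'
  rw [deg_eq] at h
  omega

end Pool.R453.Sse
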