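import Pool.Agent.R453.Sse.Sys

set_option autoImplicit false

namespace Pool.R453.Sse

open Topology

/-- bi-infinite sequences over `E` with consecutive terms in relation `r` -/
def SS (E : Type) (r : E → E → Prop) : Type := {x : ℤ → E // ∀ k, r (x k) (x (k + 1))}

instance (E : Type) [TopologicalSpace E] (r : E → E → Prop) : TopologicalSpace (SS E r) :=
  inferInstanceAs (TopologicalSpace {x : ℤ → E // ∀ k, r (x k) (x (k + 1))})

variable {E E' : Type} [TopologicalSpace E] [TopologicalSpace E'] {r : E → E → Prop}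
  {r' : E' → E' → Prop}

omit [TopologicalSpace E] in
lemma SS.ext' {x y : SS E r} (h : ∀ k, x.1 k = y.1 k) : x = y := Subtype.ext (funext h)

lemma SS.cont_coord (k : ℤ) : Continuous (fun x : SS E r => x.1 k) :=
  (continuous_apply k).comp continuous_subtype_val

/-- the shift flow -/
def SS.flow (E : Type) [TopologicalSpace E] (r : E → E → Prop) : Flow (SS E r) where
  act a x := ⟨fun k => x.1 (k + a), fun k => by
    have := x.2 (k + a)
    rwa [show k + a + 1 = k + 1 + a by ring] at this⟩
  zero x := by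
    apply SS.ext'; intro k
    show x.1 (k + 0) = x.1 k
    rw [add_zero]
  add a b x := by
    apply SS.ext'; intro k
    show x.1 (k + (a + b)) = x.1 (k + a + b)
    rw [add_assoc]
  cont a := by
    refine Continuous.subtype_mk ?_ _
    exact continuous_pi (fun k => SS.cont_coord (k + a))

@[simp] lemma SS.flow_act (a : ℤ) (x : SS E r) (k : ℤ) :
    ((SS.flow E r).act a x).1 k = x.1 (k + a) := rfl

/-- renaming of the alphabet -/
theorem alph [DiscreteTopology E] [DiscreteTopology E'] (f : E → E')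
    (hf : Function.Injective f) (hr : ∀ a b, r a b ↔ r' (f a) (f b))
    (hs : ∀ a' b', r' a' b' → ∃ a, f a = a') :
    FConj (SS.flow E r) (SS.flow E' r') := by
  classical
  let S := {e' : E' // ∃ a, f a = e'}
  let g : S → E := fun s => Classical.choose s.2
  have hg : ∀ s : S, f (g s) = s.1 := fun s => Classical.choose_spec s.2
  have hgc : Continuous g := continuous_of_discreteTopology
  refine ⟨{ toFun := fun x => ⟨fun k => f (x.1 k), fun k => (hr _ _).1 (x.2 k)⟩
            invFun := fun y => ⟨fun k => g ⟨y.1 k, hs _ _ (y.2 k)⟩, fun k => by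
              rw [hr, hg, hg]; exact y.2 k⟩
            left_inv := ?_
            right_inv := ?_
            continuous_toFun := ?_
            continuous_invFun := ?_ }, ?_⟩
  · intro x
    apply SS.ext'; intro k
    exact hf (hg _)
  · intro y
    apply SS.ext'; intro k
    exact hg _
  · refine Continuous.subtype_mk ?_ _
    refine continuous_pi (fun k => ?_)
    exact continuous_of_discreteTopology.comp (SS.cont_coord k)
  · refine Continuous.subtype_mk ?_ _
    refine continuous_pi (fun k => ?_)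
    exact hgc.comp (Continuous.subtype_mk (SS.cont_coord k) _)
  · intro a x
    rfl

/-- the edges of the graph of a nonnegative integer matrix -/
abbrev Edge {n : ℕ} (A : Matrix (Fin n) (Fin n) ℕ) : Type :=
  Σ i : Fin n, Σ j : Fin n, Fin (A i j)

/-- the discrete topology on edges -/
instance {n : ℕ} (A : Matrix (Fin n) (Fin n) ℕ) : TopologicalSpace (Edge A) := ⊥

instance {n : ℕ} (A : Matrix (Fin n) (Fin n) ℕ) : DiscreteTopology (Edge A) := ⟨rfl⟩

/-- the edge shift `X_A`: bi-infinite sequences of edges in which each edge ends where the next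
one begins, with the product topology of the discrete topology on edges -/
def EdgeShift {n : ℕ} (A : Matrix (Fin n) (Fin n) ℕ) : Type :=
  {x : ℤ → Edge A // ∀ k, (x k).2.1 = (x (k + 1)).1}

instance {n : ℕ} (A : Matrix (Fin n) (Fin n) ℕ) : TopologicalSpace (EdgeShift A) :=
  inferInstanceAs (TopologicalSpace {x : ℤ → Edge A // ∀ k, (x k).2.1 = (x (k + 1)).1})

/-- the left shift `σ_A` -/
def EdgeShift.shift {n : ℕ} {A : Matrix (Fin n) (Fin n) ℕ} (x : EdgeShift A) : EdgeShift A :=
  ⟨fun k => x.1 (k + 1), fun k => x.2 (k + 1)⟩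

/-- `X_A` and `X_B` are conjugate -/
def Conj {n m : ℕ} (A : Matrix (Fin n) (Fin n) ℕ) (B : Matrix (Fin m) (Fin m) ℕ) : Prop :=
  ∃ φ : EdgeShift A ≃ₜ EdgeShift B, ∀ x, φ x.shift = (φ x).shift

/-- the flow of an edge shift -/
abbrev eflow {n : ℕ} (A : Matrix (Fin n) (Fin n) ℕ) :=
  SS.flow (Edge A) (fun e f => e.2.1 = f.1)

lemma fconj_of_one {X Y : Type} [TopologicalSpace X] [TopologicalSpace Y] (F : Flow X)
    (G : Flow Y) (φ : X ≃ₜ Y) (h1 : ∀ x, φ (F.act 1 x) = G.act 1 (φ x)) : FConj F G := by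
  refine ⟨φ, ?_⟩
  have hn : ∀ (a : ℕ) x, φ (F.act a x) = G.act a (φ x) := by
    intro a
    induction a with
    | zero => intro x; simp [Flow.zero]
    | succ a ih =>
      intro x
      push_cast
      rw [F.add, ih, h1, G.add]
  intro a x
  obtain ⟨b, rfl | rfl⟩ := Int.eq_nat_or_neg a
  · exact hn b x
  · have h2 := hn b (F.act (-(b : ℤ)) x)
    rw [← F.add] at h2
    simp only [add_neg_cancel, Flow.zero] at h2
    have h3 : G.act (-(b : ℤ)) (φ x) = G.act (-(b : ℤ))
        (G.act b (φ (F.act (-(b : ℤ)) x))) := by rw [← h2]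
    rw [h3, ← G.add]
    simp [Flow.zero]

theorem conj_iff {n m : ℕ} (A : Matrix (Fin n) (Fin n) ℕ) (B : Matrix (Fin m) (Fin m) ℕ) :
    Conj A B ↔ FConj (eflow A) (eflow B) := by
  constructor
  · rintro ⟨φ, hφ⟩
    exact fconj_of_one (eflow A) (eflow B) φ hφ
  · rintro ⟨φ, hφ⟩
    exact ⟨φ, fun x => hφ 1 x⟩

/-- triples of natural numbers -/
abbrev T3 : Type := ℕ × ℕ × ℕ

/-- relation of the coded edge shift -/
def relE (a : ℕ → ℕ → ℕ) (e f : T3) : Prop :=
  e.2.2 < a e.1 e.2.1 ∧ f.2.2 < a f.1 f.2.1 ∧ e.2.1 = f.1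

/-- the edge shift is conjugate to its coded form -/
theorem edge_code {n : ℕ} (A : Matrix (Fin n) (Fin n) ℕ) (a : ℕ → ℕ → ℕ)
    (ha : ∀ i j : Fin n, A i j = a i j) (hb : ∀ i j, a i j ≠ 0 → i < n ∧ j < n) :
    FConj (eflow A) (SS.flow T3 (relE a)) := by
  refine alph (fun e : Edge A => ((e.1 : ℕ), (e.2.1 : ℕ), (e.2.2 : ℕ))) ?_ ?_ ?_
  · rintro ⟨i, j, c⟩ ⟨i', j', c'⟩ h
    simp only [Prod.mk.injEq] at h
    obtain ⟨h1, h2, h3⟩ := h
    have h1' : i = i' := Fin.ext h1
    have h2' : j = j' := Fin.ext h2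
    subst h1' h2'
    have h3' : c = c' := Fin.ext h3
    subst h3'
    rfl
  · rintro ⟨i, j, c⟩ ⟨i', j', c'⟩
    constructor
    · intro h
      refine ⟨?_, ?_, congrArg Fin.val h⟩
      · show (c : ℕ) < a i j
        rw [← ha]; exact c.2
      · show (c' : ℕ) < a i' j'
        rw [← ha]; exact c'.2
    · rintro ⟨_, _, h⟩
      exact Fin.ext h
  · rintro ⟨i, j, c⟩ b' ⟨h1, _, _⟩
    have h1' : c < a i j := h1
    obtain ⟨hi, hj⟩ := hb i j (by omega)
    refine ⟨⟨⟨i, hi⟩, ⟨j, hj⟩, ⟨c, ?_⟩⟩, rfl⟩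
    rw [ha]
    exact h1'

/-- the edge shift of a 0-1 matrix is conjugate to the vertex shift, with coded vertices -/
theorem vertex_code {N : ℕ} (M : Matrix (Fin N) (Fin N) ℕ) (dec : Fin N → T3)
    (R : T3 → T3 → Prop) (hdec : Function.Injective dec)
    (hM : ∀ v w, M v w ≤ 1) (hR : ∀ v w, M v w = 1 ↔ R (dec v) (dec w))
    (hs : ∀ a b, R a b → ∃ v w, dec v = a ∧ dec w = b) :
    FConj (eflow M) (SS.flow T3 R) := by
  -- edges as pairs of triples
  refine FConj.trans (alph (E' := T3 × T3)
    (r' := fun e f => R e.1 e.2 ∧ R f.1 f.2 ∧ e.2 = f.1)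
    (fun e : Edge M => (dec e.1, dec e.2.1)) ?_ ?_ ?_) ?_
  · rintro ⟨i, j, c⟩ ⟨i', j', c'⟩ h
    simp only [Prod.mk.injEq] at h
    obtain ⟨h1, h2⟩ := h
    have h1' := hdec h1
    have h2' := hdec h2
    subst h1' h2'
    have h3' : c = c' := by
      have := hM i j
      have := c.2
      have := c'.2
      apply Fin.ext
      omega
    subst h3'
    rfl
  · rintro ⟨i, j, c⟩ ⟨i', j', c'⟩
    constructor
    · intro h
      refine ⟨?_, ?_, congrArg dec h⟩
      · show R (dec i) (dec j)
        rw [← hR]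
        have := hM i j
        have := c.2
        omega
      · show R (dec i') (dec j')
        rw [← hR]
        have := hM i' j'
        have := c'.2
        omega
    · rintro ⟨_, _, h⟩
      exact hdec h
  · rintro ⟨a, b⟩ b' ⟨h1, _, _⟩
    obtain ⟨v, w, hv, hw⟩ := hs a b h1
    have h1' : R (dec v) (dec w) := by rw [hv, hw]; exact h1
    rw [← hR] at h1'
    refine ⟨⟨v, w, ⟨0, by omega⟩⟩, ?_⟩
    show (dec v, dec w) = (a, b)
    rw [hv, hw]
  · refine ⟨{ toFun := fun x => ⟨fun k => (x.1 k).1, fun k => ?_⟩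
              invFun := fun y => ⟨fun k => (y.1 k, y.1 (k + 1)), fun k => ?_⟩
              left_inv := ?_
              right_inv := ?_
              continuous_toFun := ?_
              continuous_invFun := ?_ }, ?_⟩
    · obtain ⟨h1, h2, h3⟩ := x.2 k
      show R (x.1 k).1 (x.1 (k + 1)).1
      exact h3 ▸ h1
    · exact ⟨y.2 k, y.2 (k + 1), rfl⟩
    · intro x
      refine Subtype.ext (funext fun k => ?_)
      obtain ⟨h1, h2, h3⟩ := x.2 k
      show ((x.1 k).1, (x.1 (k + 1)).1) = x.1 k
      exact Prod.ext rfl h3.symm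
    · intro y
      refine Subtype.ext (funext fun k => ?_)
      rfl
    · refine Continuous.subtype_mk ?_ _
      exact continuous_pi (fun k => continuous_fst.comp (SS.cont_coord k))
    · refine Continuous.subtype_mk ?_ _
      exact continuous_pi (fun k => (SS.cont_coord k).prodMk (SS.cont_coord (k + 1)))
    · intro a x
      rfl

end Pool.R453.Sse
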