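import Mathlib

set_option autoImplicit false

namespace Pool.R453.Sse

open Topology

/-- an action of `ℤ` by continuous maps -/
structure Flow (X : Type) [TopologicalSpace X] where
  act : ℤ → X → X
  zero : ∀ x, act 0 x = x
  add : ∀ a b x, act (a + b) x = act a (act b x)
  cont : ∀ a, Continuous (act a)

variable {X Y Z : Type} [TopologicalSpace X] [TopologicalSpace Y] [TopologicalSpace Z]

/-- equivariant homeomorphism -/
def FConj (F : Flow X) (G : Flow Y) : Prop :=
  ∃ φ : X ≃ₜ Y, ∀ a x, φ (F.act a x) = G.act a (φ x)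

lemma FConj.symm {F : Flow X} {G : Flow Y} (h : FConj F G) : FConj G F := by
  obtain ⟨φ, hφ⟩ := h
  refine ⟨φ.symm, fun a y => ?_⟩
  apply φ.injective
  rw [hφ]; simp

lemma FConj.trans {F : Flow X} {G : Flow Y} {H : Flow Z} (h : FConj F G) (h' : FConj G H) :
    FConj F H := by
  obtain ⟨φ, hφ⟩ := h
  obtain ⟨ψ, hψ⟩ := h'
  refine ⟨φ.trans ψ, fun a x => ?_⟩
  simp [hφ, hψ]

lemma cont_piece {k : X → ℤ} (hk : IsLocallyConstant k) (F : ℤ → X → Y)
    (hF : ∀ a, Continuous (F a)) : Continuous (fun x => F (k x) x) := by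
  rw [continuous_iff_continuousAt]
  intro x
  have h1 : ∀ᶠ y in 𝓝 x, k y = k x := hk.eventually_eq x
  have h2 : ContinuousAt (F (k x)) x := (hF (k x)).continuousAt
  refine h2.congr ?_
  filter_upwards [h1] with y hy
  rw [hy]

/-- a grading of a flow -/
structure Grad (F : Flow X) (L : ℕ) where
  g : X → ZMod L
  loc : IsLocallyConstant g
  eq : ∀ a x, g (F.act a x) = g x + a

/-- the base of a graded flow -/
def Grad.Base {F : Flow X} {L : ℕ} (G : Grad F L) : Type := {x : X // G.g x = 0}

instance {F : Flow X} {L : ℕ} (G : Grad F L) : TopologicalSpace G.Base :=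
  inferInstanceAs (TopologicalSpace {x : X // G.g x = 0})

/-- the induced flow on the base -/
def Grad.base {F : Flow X} {L : ℕ} (G : Grad F L) : Flow G.Base where
  act a x := ⟨F.act (L * a) x.1, by rw [G.eq, x.2]; simp⟩
  zero x := by
    apply Subtype.ext
    simp [F.zero]
  add a b x := by
    apply Subtype.ext
    show F.act _ _ = F.act _ (F.act _ _)
    rw [mul_add, F.add]
  cont a := by
    refine Continuous.subtype_mk ?_ _
    exact (F.cont _).comp continuous_subtype_val

lemma locConst_comp {A B : Type} {f : X → A} (hf : IsLocallyConstant f) (h : A → B) :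
    IsLocallyConstant (fun x => h (f x)) := hf.comp h

/-- conjugate graded systems have conjugate bases -/
theorem base_of_conj {F : Flow X} {F' : Flow Y} {L : ℕ} [NeZero L] (G : Grad F L) (G' : Grad F' L)
    (h : FConj F F') : FConj G.base G'.base := by
  obtain ⟨φ, hφ⟩ := h
  have hφs : ∀ a y, φ.symm (F'.act a y) = F.act a (φ.symm y) := by
    intro a y
    apply φ.injective
    rw [hφ]; simp
  let k : X → ℤ := fun x => ((G'.g (φ x)).val : ℤ)
  have hk : IsLocallyConstant k := (G'.loc.comp_continuous φ.continuous).comp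
    (fun z : ZMod L => (z.val : ℤ))
  have hkz : ∀ x, ((k x : ℤ) : ZMod L) = G'.g (φ x) := by
    intro x; simp [k]
  let k' : Y → ℤ := fun y => ((-(G.g (φ.symm y))).val : ℤ)
  have hk' : IsLocallyConstant k' := (G.loc.comp_continuous φ.symm.continuous).comp
    (fun z : ZMod L => ((-z).val : ℤ))
  have hkz' : ∀ y, ((k' y : ℤ) : ZMod L) = -(G.g (φ.symm y)) := by
    intro y; simp [k']
  refine ⟨{ toFun := fun x => ⟨F'.act (-(k x.1)) (φ x.1), ?_⟩
            invFun := fun y => ⟨F.act (k' y.1) (φ.symm y.1), ?_⟩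
            left_inv := ?_
            right_inv := ?_
            continuous_toFun := ?_
            continuous_invFun := ?_ }, ?_⟩
  · rw [G'.eq]; push_cast; rw [hkz]; simp
  · rw [G.eq, hkz']; simp
  · intro x
    apply Subtype.ext
    show F.act (k' _) (φ.symm _) = x.1
    have h1 : φ.symm (F'.act (-(k x.1)) (φ x.1)) = F.act (-(k x.1)) x.1 := by
      rw [hφs]; simp
    have h2 : k' (F'.act (-(k x.1)) (φ x.1)) = k x.1 := by
      show ((-(G.g (φ.symm (F'.act (-(k x.1)) (φ x.1))))).val : ℤ) = k x.1
      rw [h1, G.eq, x.2]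
      simp only [zero_add, Int.cast_neg, neg_neg]
      rw [hkz]
    rw [h2, h1, ← F.add]
    simp [F.zero]
  · intro y
    apply Subtype.ext
    show F'.act (-(k _)) (φ _) = y.1
    have h1 : φ (F.act (k' y.1) (φ.symm y.1)) = F'.act (k' y.1) y.1 := by
      rw [hφ]; simp
    have h2 : k (F.act (k' y.1) (φ.symm y.1)) = k' y.1 := by
      show ((G'.g (φ (F.act (k' y.1) (φ.symm y.1)))).val : ℤ) = k' y.1
      rw [h1, G'.eq, y.2, zero_add, hkz']
    rw [h2, h1, ← F'.add]
    simp [F'.zero]
  · refine Continuous.subtype_mk ?_ _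
    have := cont_piece hk (fun a x => F'.act (-a) (φ x)) (fun a => (F'.cont _).comp φ.continuous)
    exact this.comp continuous_subtype_val
  · refine Continuous.subtype_mk ?_ _
    have := cont_piece hk' (fun a y => F.act a (φ.symm y))
      (fun a => (F.cont _).comp φ.symm.continuous)
    exact this.comp continuous_subtype_val
  · intro a x
    apply Subtype.ext
    show F'.act (-(k (F.act (L * a) x.1))) (φ (F.act (L * a) x.1)) =
      F'.act (L * a) (F'.act (-(k x.1)) (φ x.1))
    have h1 : k (F.act (L * a) x.1) = k x.1 := by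
      show ((G'.g (φ (F.act (L * a) x.1))).val : ℤ) = k x.1
      rw [hφ, G'.eq]
      simp [k]
    rw [h1, hφ, ← F'.add, ← F'.add, add_comm]

/-- graded systems with conjugate bases are conjugate -/
theorem conj_of_base {F : Flow X} {F' : Flow Y} {L : ℕ} [NeZero L] (G : Grad F L) (G' : Grad F' L)
    (h : FConj G.base G'.base) : FConj F F' := by
  obtain ⟨ψ, hψ⟩ := h
  have hψs : ∀ a y, ψ.symm (G'.base.act a y) = G.base.act a (ψ.symm y) := by
    intro a y
    apply ψ.injective
    rw [hψ]; simp
  let k : X → ℤ := fun x => ((G.g x).val : ℤ)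
  have hk : IsLocallyConstant k := G.loc.comp (fun z : ZMod L => (z.val : ℤ))
  have hkz : ∀ x, ((k x : ℤ) : ZMod L) = G.g x := by intro x; simp [k]
  let k' : Y → ℤ := fun y => ((G'.g y).val : ℤ)
  have hk' : IsLocallyConstant k' := G'.loc.comp (fun z : ZMod L => (z.val : ℤ))
  have hkz' : ∀ y, ((k' y : ℤ) : ZMod L) = G'.g y := by intro y; simp [k']
  let d : X → G.Base := fun x => ⟨F.act (-(k x)) x, by rw [G.eq]; push_cast; rw [hkz]; simp⟩
  let d' : Y → G'.Base := fun y => ⟨F'.act (-(k' y)) y, by
    rw [G'.eq]; push_cast; rw [hkz']; simp⟩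
  have hd : Continuous d := by
    refine Continuous.subtype_mk ?_ _
    exact cont_piece hk (fun a x => F.act (-a) x) (fun a => F.cont _)
  have hd' : Continuous d' := by
    refine Continuous.subtype_mk ?_ _
    exact cont_piece hk' (fun a x => F'.act (-a) x) (fun a => F'.cont _)
  have e1 : ∀ x, G'.g (F'.act (k x) (ψ (d x)).1) = G.g x := by
    intro x
    rw [G'.eq, (ψ (d x)).2, zero_add, hkz]
  have e2 : ∀ y, G.g (F.act (k' y) (ψ.symm (d' y)).1) = G'.g y := by
    intro y
    rw [G.eq, (ψ.symm (d' y)).2, zero_add, hkz']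
  refine ⟨{ toFun := fun x => F'.act (k x) (ψ (d x)).1
            invFun := fun y => F.act (k' y) (ψ.symm (d' y)).1
            left_inv := ?_
            right_inv := ?_
            continuous_toFun := ?_
            continuous_invFun := ?_ }, ?_⟩
  · intro x
    show F.act (k' _) (ψ.symm (d' _)).1 = x
    have h1 : k' (F'.act (k x) (ψ (d x)).1) = k x := by
      show ((G'.g (F'.act (k x) (ψ (d x)).1)).val : ℤ) = _
      rw [e1]
    have h2 : d' (F'.act (k x) (ψ (d x)).1) = ψ (d x) := by
      apply Subtype.ext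
      show F'.act (-(k' _)) _ = _
      rw [h1, ← F'.add]
      simp [F'.zero]
    rw [h1, h2]
    simp only [Homeomorph.symm_apply_apply]
    show F.act (k x) (F.act (-(k x)) x) = x
    rw [← F.add]
    simp [F.zero]
  · intro y
    show F'.act (k _) (ψ (d _)).1 = y
    have h1 : k (F.act (k' y) (ψ.symm (d' y)).1) = k' y := by
      show ((G.g (F.act (k' y) (ψ.symm (d' y)).1)).val : ℤ) = _
      rw [e2]
    have h2 : d (F.act (k' y) (ψ.symm (d' y)).1) = ψ.symm (d' y) := by
      apply Subtype.ext
      show F.act (-(k _)) _ = _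
      rw [h1, ← F.add]
      simp [F.zero]
    rw [h1, h2]
    simp only [Homeomorph.apply_symm_apply]
    show F'.act (k' y) (F'.act (-(k' y)) y) = y
    rw [← F'.add]
    simp [F'.zero]
  · exact cont_piece hk (fun a x => F'.act a (ψ (d x)).1)
      (fun a => (F'.cont _).comp (continuous_subtype_val.comp (ψ.continuous.comp hd)))
  · exact cont_piece hk' (fun a y => F.act a (ψ.symm (d' y)).1)
      (fun a => (F.cont _).comp (continuous_subtype_val.comp (ψ.symm.continuous.comp hd')))
  · -- equivariance
    intro a x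
    show F'.act (k (F.act a x)) (ψ (d (F.act a x))).1 = F'.act a (F'.act (k x) (ψ (d x)).1)
    -- k (act a x) = k x + a - L * c
    have h0 : ((k (F.act a x) - (k x + a) : ℤ) : ZMod L) = 0 := by
      push_cast
      rw [hkz, hkz, G.eq]; ring
    obtain ⟨c, hc⟩ := (ZMod.intCast_zmod_eq_zero_iff_dvd _ L).mp h0
    have hd1 : d (F.act a x) = G.base.act (-c) (d x) := by
      apply Subtype.ext
      show F.act (-(k (F.act a x))) (F.act a x) = F.act (L * (-c)) (F.act (-(k x)) x)
      rw [← F.add, ← F.add]
      congr 1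
      linarith
    rw [hd1, hψ]
    show F'.act (k (F.act a x)) (F'.act (L * (-c)) (ψ (d x)).1) = _
    rw [← F'.add, ← F'.add]
    congr 1
    linarith

end Pool.R453.Sse
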