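import Pool.Agent.R453.Sse.Comp2

set_option autoImplicit false

namespace Pool.R453.Sse

open Topology

variable {X Y : Type} [TopologicalSpace X] [TopologicalSpace Y]

/-- forward topological transitivity -/
def FTrans (F : Flow X) : Prop :=
  ∀ U V : Set X, IsOpen U → IsOpen V → U.Nonempty → V.Nonempty →
    ∃ n : ℕ, ∃ x ∈ U, F.act n x ∈ V

lemma FTrans.of_conj {F : Flow X} {G : Flow Y} (h : FConj F G) (hF : FTrans F) : FTrans G := by
  obtain ⟨φ, hφ⟩ := h
  intro U V hU hV hUn hVn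
  obtain ⟨n, x, hx, hxn⟩ := hF (φ ⁻¹' U) (φ ⁻¹' V) (hU.preimage φ.continuous)
    (hV.preimage φ.continuous)
    (by obtain ⟨u, hu⟩ := hUn; exact ⟨φ.symm u, by simpa using hu⟩)
    (by obtain ⟨u, hu⟩ := hVn; exact ⟨φ.symm u, by simpa using hu⟩)
  refine ⟨n, φ x, hx, ?_⟩
  rw [← hφ]
  exact hxn

lemma ftrans_conj {F : Flow X} {G : Flow Y} (h : FConj F G) : FTrans F ↔ FTrans G :=
  ⟨FTrans.of_conj h, FTrans.of_conj h.symm⟩

lemma ftrans_base {F : Flow X} {L : ℕ} [NeZero L] (G : Grad F L) :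
    FTrans G.base ↔ FTrans F := by
  constructor
  · intro h U V hU hV hUn hVn
    obtain ⟨x, hx⟩ := hUn
    obtain ⟨y, hy⟩ := hVn
    obtain ⟨a, ha⟩ : ∃ a : ℕ, ((a : ℕ) : ZMod L) = -(G.g x) := ⟨(-(G.g x)).val, by simp⟩
    obtain ⟨j, hj⟩ : ∃ j : ℕ, ((j : ℕ) : ZMod L) = G.g y := ⟨(G.g y).val, by simp⟩
    have hbx : G.g (F.act a x) = 0 := by rw [G.eq, Int.cast_natCast, ha]; ring
    have hby : G.g (F.act (-(j : ℤ)) y) = 0 := by
      rw [G.eq, Int.cast_neg, Int.cast_natCast, hj]; ring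
    obtain ⟨n, z, hz, hzn⟩ := h (fun z : G.Base => F.act (-(a : ℤ)) z.1 ∈ U)
      (fun z : G.Base => F.act (j : ℤ) z.1 ∈ V)
      (hU.preimage ((F.cont _).comp continuous_subtype_val))
      (hV.preimage ((F.cont _).comp continuous_subtype_val))
      ⟨⟨F.act a x, hbx⟩, by
        show F.act (-(a : ℤ)) (F.act a x) ∈ U
        rw [← F.add, neg_add_cancel, F.zero]; exact hx⟩
      ⟨⟨F.act (-(j : ℤ)) y, hby⟩, by
        show F.act (j : ℤ) (F.act (-(j : ℤ)) y) ∈ V
        rw [← F.add, add_neg_cancel, F.zero]; exact hy⟩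
    refine ⟨j + L * n + a, F.act (-(a : ℤ)) z.1, hz, ?_⟩
    have hzn' : F.act (j : ℤ) (F.act (L * (n : ℤ)) z.1) ∈ V := hzn
    rw [← F.add] at hzn'
    rw [← F.add]
    have he : ((j + L * n + a : ℕ) : ℤ) + -(a : ℤ) = (j : ℤ) + (L : ℤ) * (n : ℤ) := by
      push_cast; ring
    rw [he]
    exact hzn'
  · intro h U V hU hV hUn hVn
    have hopen : IsOpen {x : X | G.g x = 0} := G.loc.isOpen_fiber 0
    have hmap : IsOpenMap (Subtype.val : {x : X // G.g x = 0} → X) :=
      hopen.isOpenMap_subtype_val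
    obtain ⟨n, x, hx, hxn⟩ := h (Subtype.val '' U) (Subtype.val '' V) (hmap _ hU) (hmap _ hV)
      (hUn.image _) (hVn.image _)
    obtain ⟨u, hu, rfl⟩ := hx
    obtain ⟨v, hv, hvn⟩ := hxn
    have h1 : G.g v.1 = 0 := v.2
    rw [hvn, G.eq, u.2, zero_add, Int.cast_natCast] at h1
    obtain ⟨m, hm⟩ := (ZMod.natCast_eq_zero_iff _ _).1 h1
    refine ⟨m, u, hu, ?_⟩
    have h2 : G.base.act m u = v := by
      apply Subtype.ext
      show F.act (L * (m : ℤ)) u.1 = v.1
      rw [hvn, hm]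
      push_cast
      rfl
    rw [h2]
    exact hv

/-- the edge shift is (forward) topologically transitive -/
def TransShift (l : List (List ℕ)) : Prop :=
  ∀ U V : Set (EdgeShift (mat l)), IsOpen U → IsOpen V → U.Nonempty → V.Nonempty →
    ∃ n : ℕ, ∃ x ∈ U, EdgeShift.shift^[n] x ∈ V

lemma act_iter {n : ℕ} {M : Matrix (Fin n) (Fin n) ℕ} (k : ℕ) (x : EdgeShift M) :
    EdgeShift.shift^[k] x = (eflow M).act k x := by
  induction k generalizing x with
  | zero => exact ((eflow M).zero x).symm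
  | succ k ih =>
    rw [Function.iterate_succ_apply, ih]
    have h := (eflow M).add k 1 x
    have h1 : (eflow M).act 1 x = EdgeShift.shift x := rfl
    rw [h1] at h
    have h2 : ((k + 1 : ℕ) : ℤ) = (k : ℤ) + 1 := by push_cast; ring
    rw [h2]
    exact h.symm

lemma transShift_iff (l : List (List ℕ)) : TransShift l ↔ FTrans (eflow (mat l)) := by
  constructor
  · intro h U V hU hV hUn hVn
    obtain ⟨n, x, hx, hxn⟩ := h U V hU hV hUn hVn
    rw [act_iter] at hxn
    exact ⟨n, x, hx, hxn⟩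
  · intro h U V hU hV hUn hVn
    obtain ⟨n, x, hx, hxn⟩ := h U V hU hV hUn hVn
    refine ⟨n, x, hx, ?_⟩
    exact (congrArg (fun z : EdgeShift (mat l) => z ∈ V) (act_iter (M := mat l) n x)).mpr hxn

theorem trans_TI {D : ℕ} (hD : 2 ≤ D) {K : ℕ} {l : List (List ℕ)} (h : Bd K l) :
    TransShift l ↔ TransShift (TI D K l) := by
  have : NeZero D := ⟨by omega⟩
  have g := good_of_bd h
  have hb := baseI_conj (K := K) hD (R := relT (ent l) K) (fun u w => relT_box)
  rw [transShift_iff, transShift_iff, ftrans_conj (mat_conj (l := l)),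
    ← ftrans_conj (base_conj g), ftrans_base, ← ftrans_conj hb, ftrans_base,
    ← ftrans_conj (TI_conj hD K l)]

end Pool.R453.Sse
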